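import Pool.Agent.V8H65.PW.Mod

/-!
# The two-point module is simple

Let `V = F[x_0, x_1]` be the module of two points `λ_0 ≠ λ_1` with `β_0 ≠ β_1`, both different from
`0, 1`.  A subalgebra of operators containing all the `e_m` contains `(P_1 - Q_1)^17 O`, where `O` is
spanned by the `P_p Q_q`, and `V` is a simple module.
-/

set_option autoImplicit false
set_option linter.unusedSectionVars false

namespace Pool.Agent.V8H65.PW

open MvPolynomial

section algebra

variable {F : Type*} [Field F] [CharZero F] {E : Type*} [Ring E] [Algebra F E]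

/-- `(P_1 - Q_1)^8 (P_p Q_q + P_q Q_p)` belongs to the algebra. -/
lemma mem8 {c c' : F} (hc : c ≠ 0) (hc' : c' ≠ 0) {P A Q B : ℤ → E} (hP : Fam c P A)
    (hQ : Fam c' Q B) (h2 : Two P A Q B) (R : Subalgebra F E) (hR : ∀ m, A m + B m ∈ R) (p q : ℤ) :
    (P 1 - Q 1) ^ 8 * (Q p * P q + P p * Q q) ∈ R := by
  have h1 := WW_mem (F := F) (Subalgebra.toSubmodule R)
    (G := fun l m n r => (A l + B l) * (A m + B m) * (A n + B n) * (A r + B r))
    (fun l m n r => R.mul_mem (R.mul_mem (R.mul_mem (hR l) (hR m)) (hR n)) (hR r))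
    (q - 2) (p - 2) 0 0
  rw [two_point hP hQ h2] at h1
  simp only [Pi.smul_apply] at h1
  have e1 : p - 2 + 0 + 2 = p := by ring
  have e2 : q - 2 + 0 + 2 = q := by ring
  rw [e1, e2] at h1
  have h3 := (Subalgebra.toSubmodule R).smul_mem (c * c')⁻¹ h1
  rw [smul_smul, inv_mul_cancel₀ (mul_ne_zero hc hc'), one_smul] at h3
  exact h3

/-- The commutative identity behind `mem9`. -/
lemma mem9 {c c' b b' : F} (hc : c ≠ 0) (hc' : c' ≠ 0) (hb : b ≠ b') {P A Q B : ℤ → E}
    (hP : Fam c P A) (hQ : Fam c' Q B) (h2 : Two P A Q B) (R : Subalgebra F E)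
    (hR : ∀ m, A m + B m ∈ R) {θ θ' : E} (hA : ∀ m : ℤ, A m = P m * (θ + (b * m) • (1 : E)))
    (hB : ∀ m : ℤ, B m = Q m * (θ' + (b' * m) • (1 : E))) :
    (P 1 - Q 1) ^ 9 ∈ R := by
  have s00 := mem8 hc hc' hP hQ h2 R hR 0 0
  have s10 := mem8 hc hc' hP hQ h2 R hR 1 0
  have s11 := mem8 hc hc' hP hQ h2 R hR 1 1
  have h1 : (P 1 - Q 1) ^ 8 * (Q 0 * P 0 + P 0 * Q 0) * (A 1 + B 1) -
      2 • ((P 1 - Q 1) ^ 8 * (Q 1 * P 0 + P 1 * Q 0) * (A 0 + B 0)) +
      (P 1 - Q 1) ^ 8 * (Q 1 * P 1 + P 1 * Q 1) * (A (-1) + B (-1)) =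
      (2 * (b - b')) • (P 1 - Q 1) ^ 9 := by
    have hPm : P 1 * P (-1) = 1 := by rw [hP.PP]; exact hP.P0
    have hQm : Q 1 * Q (-1) = 1 := by rw [hQ.PP]; exact hQ.P0
    have k1 : P 1 * Q 1 * A (-1) = Q 1 * (θ - b • (1 : E)) := by
      rw [h2.PQ, mul_assoc, hA, ← mul_assoc (P 1), hPm, one_mul]
      congr 1
      push_cast
      module
    have k2 : P 1 * Q 1 * B (-1) = P 1 * (θ' - b' • (1 : E)) := by
      rw [mul_assoc, hB, ← mul_assoc (Q 1), hQm, one_mul]
      congr 1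
      push_cast
      module
    have k3 : A 1 = P 1 * (θ + b • (1 : E)) := by
      rw [hA]; push_cast; rw [mul_one]
    have k4 : B 1 = Q 1 * (θ' + b' • (1 : E)) := by
      rw [hB]; push_cast; rw [mul_one]
    have k5 : A 0 = θ := by
      rw [hA, hP.P0]; push_cast; simp
    have k6 : B 0 = θ' := by
      rw [hB, hQ.P0]; push_cast; simp
    have k7 : (A 1 + B 1) - (P 1 + Q 1) * (A 0 + B 0) + P 1 * Q 1 * (A (-1) + B (-1)) =
        (b - b') • (P 1 - Q 1) := by
      rw [mul_add (P 1 * Q 1), k1, k2, k3, k4, k5, k6]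
      simp only [mul_add, mul_sub, add_mul, mul_smul_comm, mul_one]
      module
    have k8 : (P 1 - Q 1) ^ 8 * (Q 0 * P 0 + P 0 * Q 0) * (A 1 + B 1) -
      2 • ((P 1 - Q 1) ^ 8 * (Q 1 * P 0 + P 1 * Q 0) * (A 0 + B 0)) +
      (P 1 - Q 1) ^ 8 * (Q 1 * P 1 + P 1 * Q 1) * (A (-1) + B (-1)) =
      2 • ((P 1 - Q 1) ^ 8 * ((A 1 + B 1) - (P 1 + Q 1) * (A 0 + B 0) +
        P 1 * Q 1 * (A (-1) + B (-1)))) := by
      rw [← h2.PQ 1 1, hP.P0, hQ.P0]
      generalize (P 1 - Q 1) ^ 8 = z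
      noncomm_ring
    rw [k8, k7, mul_smul_comm, ← pow_succ]
    module
  have h3 : (2 * (b - b')) • (P 1 - Q 1) ^ 9 ∈ R := by
    rw [← h1]
    exact R.add_mem (R.sub_mem (R.mul_mem s00 (hR 1)) (R.nsmul_mem (R.mul_mem s10 (hR 0)) 2))
      (R.mul_mem s11 (hR (-1)))
  have h4 := R.smul_mem h3 (2 * (b - b'))⁻¹
  rwa [smul_smul, inv_mul_cancel₀ (mul_ne_zero two_ne_zero (sub_ne_zero.2 hb)), one_smul] at h4

lemma mem17 {c c' b b' : F} (hc : c ≠ 0) (hc' : c' ≠ 0) (hb : b ≠ b') {P A Q B : ℤ → E}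
    (hP : Fam c P A) (hQ : Fam c' Q B) (h2 : Two P A Q B) (R : Subalgebra F E)
    (hR : ∀ m, A m + B m ∈ R) {θ θ' : E} (hA : ∀ m : ℤ, A m = P m * (θ + (b * m) • (1 : E)))
    (hB : ∀ m : ℤ, B m = Q m * (θ' + (b' * m) • (1 : E))) (p q : ℤ) :
    (P 1 - Q 1) ^ 17 * (P p * Q q) ∈ R := by
  have h9 := mem9 hc hc' hb hP hQ h2 R hR hA hB
  have s8 := mem8 hc hc' hP hQ h2 R hR
  have m1 := R.mul_mem h9 (s8 p q)
  have m2 := R.mul_mem (s8 0 0) (R.sub_mem (s8 (p + 1) q) (s8 p (q + 1)))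
  have e1 : (P 1 - Q 1) ^ 9 * ((P 1 - Q 1) ^ 8 * (Q p * P q + P p * Q q)) =
      (P 1 - Q 1) ^ 17 * (P p * Q q) + (P 1 - Q 1) ^ 17 * (P q * Q p) := by
    rw [← mul_assoc, ← pow_add, ← h2.PQ q p, mul_add, add_comm]
  have e2 : (P 1 - Q 1) ^ 8 * (Q 0 * P 0 + P 0 * Q 0) *
      ((P 1 - Q 1) ^ 8 * (Q (p + 1) * P q + P (p + 1) * Q q) -
        (P 1 - Q 1) ^ 8 * (Q p * P (q + 1) + P p * Q (q + 1))) =
      2 • ((P 1 - Q 1) ^ 17 * (P p * Q q) - (P 1 - Q 1) ^ 17 * (P q * Q p)) := by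
    have k1 : Q (p + 1) * P q = Q 1 * (P q * Q p) := by
      rw [add_comm, ← hQ.PP, mul_assoc, ← h2.PQ]
    have k2 : P (p + 1) * Q q = P 1 * (P p * Q q) := by
      rw [add_comm, ← hP.PP, mul_assoc]
    have k3 : Q p * P (q + 1) = P 1 * (P q * Q p) := by
      rw [add_comm, ← hP.PP, ← mul_assoc, ← h2.PQ, mul_assoc, ← h2.PQ]
    have k4 : P p * Q (q + 1) = Q 1 * (P p * Q q) := by
      rw [add_comm, ← hQ.PP, ← mul_assoc, h2.PQ, mul_assoc]
    rw [k1, k2, k3, k4, hP.P0, hQ.P0, ← mul_sub]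
    have k5 : (Q 1 * (P q * Q p) + P 1 * (P p * Q q)) - (P 1 * (P q * Q p) + Q 1 * (P p * Q q)) =
        (P 1 - Q 1) * (P p * Q q - P q * Q p) := by noncomm_ring
    rw [k5]
    have k6 : (P 1 - Q 1) ^ 8 * ((1 : E) * 1 + 1 * 1) = 2 • (P 1 - Q 1) ^ 8 := by
      noncomm_ring
    rw [k6, smul_mul_assoc, ← mul_assoc ((P 1 - Q 1) ^ 8) (P 1 - Q 1), ← pow_succ, ← mul_assoc,
      ← pow_add, mul_sub]
  rw [e1] at m1
  rw [e2] at m2
  have m3 := R.add_mem (R.smul_mem m1 (2⁻¹ : F)) (R.smul_mem m2 (4⁻¹ : F))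
  have e3 : (2⁻¹ : F) • ((P 1 - Q 1) ^ 17 * (P p * Q q) + (P 1 - Q 1) ^ 17 * (P q * Q p)) +
      (4⁻¹ : F) • (2 • ((P 1 - Q 1) ^ 17 * (P p * Q q) - (P 1 - Q 1) ^ 17 * (P q * Q p))) =
      (P 1 - Q 1) ^ 17 * (P p * Q q) := by
    generalize (P 1 - Q 1) ^ 17 * (P p * Q q) = x
    generalize (P 1 - Q 1) ^ 17 * (P q * Q p) = y
    match_scalars <;> norm_num
  rwa [e3] at m3

end algebra

section module

variable {F : Type*} [Field F] [CharZero F]

/-- The commutative algebra of the two powers. -/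
abbrev OO (F : Type*) [Field F] := AddMonoidAlgebra F (ℤ × ℤ)

variable (lam bet : Fin 2 → F) (hl : ∀ i, lam i ≠ 0)

/-- The action of `OO` on the two-point module. -/
noncomputable def rho (lam : Fin 2 → F) (hl : ∀ i, lam i ≠ 0) :
    OO F →ₐ[F] Module.End F (MvPolynomial (Fin 2) F) :=
  AddMonoidAlgebra.lift F (Module.End F (MvPolynomial (Fin 2) F)) (ℤ × ℤ)
    { toFun := fun v => Pm lam 0 (Multiplicative.toAdd v).1 * Pm lam 1 (Multiplicative.toAdd v).2
      map_one' := by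
        simp [Pm_zero]
      map_mul' := fun v w => by
        simp only [toAdd_mul, Prod.fst_add, Prod.snd_add]
        rw [← Pm_mul hl, ← Pm_mul hl, mul_assoc, mul_assoc]
        congr 1
        rw [← mul_assoc, ← mul_assoc, Pm_comm lam 0 1] }

lemma rho_single (p q : ℤ) (a : F) :
    rho lam hl (AddMonoidAlgebra.single (p, q) a) = a • (Pm lam 0 p * Pm lam 1 q) := by
  simp [rho]

/-- The element `P_1 - Q_1` of `OO`. -/
noncomputable def tt (F : Type*) [Field F] : OO F :=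
  AddMonoidAlgebra.single (1, 0) 1 - AddMonoidAlgebra.single (0, 1) 1

lemma rho_tt : rho lam hl (tt F) = Pm lam 0 1 - Pm lam 1 1 := by
  rw [tt, map_sub, rho_single, rho_single, Pm_zero, Pm_zero]
  simp

/-- The two-point modes. -/
noncomputable def ee (lam bet : Fin 2 → F) (m : ℤ) : Module.End F (MvPolynomial (Fin 2) F) :=
  ∑ i, Am lam bet i m

lemma ee_eq (m : ℤ) : ee lam bet m = Am lam bet 0 m + Am lam bet 1 m := by
  rw [ee, Fin.sum_univ_two]

/-- The assumptions on the parameters. -/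
structure Good (lam bet : Fin 2 → F) : Prop where
  l0 : ∀ i, lam i ≠ 0
  l1 : lam 0 ≠ lam 1
  b0 : ∀ i, bet i ≠ 0
  b1 : ∀ i, bet i ≠ 1
  b2 : bet 0 ≠ bet 1

variable {lam bet}

set_option maxRecDepth 4000 in
lemma rho_mem (hg : Good lam bet) (R : Subalgebra F (Module.End F (MvPolynomial (Fin 2) F)))
    (hR : ∀ m, ee lam bet m ∈ R) (g : OO F) :
    rho lam hg.l0 (tt F ^ 17 * g) ∈ R := by
  have hc : ∀ i, 2 * bet i * (1 - bet i) ≠ 0 := fun i =>
    mul_ne_zero (mul_ne_zero two_ne_zero (hg.b0 i)) (sub_ne_zero.2 (hg.b1 i).symm)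
  have key := mem17 (hc 0) (hc 1) hg.b2 (fam_Am hg.l0 bet 0) (fam_Am hg.l0 bet 1)
    (two_Am lam bet (by decide : (0 : Fin 2) ≠ 1)) R (fun m => by rw [← ee_eq]; exact hR m)
    (θ := th 0) (θ' := th 1) (fun m => rfl) (fun m => rfl)
  induction g using AddMonoidAlgebra.induction_linear with
  | zero =>
    rw [mul_zero, map_zero]
    exact R.zero_mem
  | add x y hx hy =>
    rw [mul_add, map_add]
    exact R.add_mem hx hy
  | single v a =>
    obtain ⟨p, q⟩ := v
    have k := R.smul_mem (key p q) a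
    have e : rho lam hg.l0 (tt F ^ 17 * AddMonoidAlgebra.single (p, q) a) =
        a • ((Pm lam 0 1 - Pm lam 1 1) ^ 17 * (Pm lam 0 p * Pm lam 1 q)) := by
      rw [map_mul, map_pow, rho_tt, rho_single, mul_smul_comm]
    rw [e]
    exact k

/-- `T - (λ_0 - λ_1)` is locally nilpotent. -/
lemma tsub_pow (f : MvPolynomial (Fin 2) F) (hl : ∀ i, lam i ≠ 0) :
    ∃ k : ℕ, ((rho lam hl (tt F) - (lam 0 - lam 1) • 1) ^ k) f = 0 := by
  obtain ⟨n, hn⟩ := exists_Fil f
  refine ⟨n, ?_⟩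
  induction n generalizing f with
  | zero =>
    simpa [Fil] using hn
  | succ n ih =>
    rw [pow_succ, Module.End.mul_apply]
    apply ih
    rw [rho_tt, LinearMap.sub_apply, Pm_sub, LinearMap.smul_apply, Module.End.one_apply,
      add_sub_cancel_left]
    have hn' := (mem_Fil_succ _ _).1 hn
    exact Submodule.sub_mem _ (Submodule.smul_mem _ _ (hn' 0)) (Submodule.smul_mem _ _ (hn' 1))

/-- Division by powers of `T`. -/
lemma exists_div (hg : Good lam bet) (f : MvPolynomial (Fin 2) F) (N : ℕ) :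
    ∃ a : OO F, rho lam hg.l0 (tt F ^ N * a) f = f := by
  obtain ⟨k, hk⟩ := tsub_pow (lam := lam) f hg.l0
  have hcop : IsCoprime (Polynomial.X ^ N : Polynomial F)
      ((Polynomial.X - Polynomial.C (lam 0 - lam 1)) ^ k) := by
    apply IsCoprime.pow
    refine ⟨Polynomial.C (lam 0 - lam 1)⁻¹, -Polynomial.C (lam 0 - lam 1)⁻¹, ?_⟩
    have : Polynomial.C (lam 0 - lam 1)⁻¹ * Polynomial.C (lam 0 - lam 1) = 1 := by
      rw [← Polynomial.C_mul, inv_mul_cancel₀ (sub_ne_zero.2 hg.l1), Polynomial.C_1]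
    rw [← this]
    ring
  obtain ⟨a, b, hab⟩ := hcop
  refine ⟨Polynomial.aeval (tt F) a, ?_⟩
  have h1 := congrArg (Polynomial.aeval (rho lam hg.l0 (tt F))) hab
  rw [map_add, map_mul, map_mul, map_pow, map_pow, map_one, map_sub, Polynomial.aeval_X,
    Polynomial.aeval_C, Algebra.algebraMap_eq_smul_one] at h1
  have h2 := LinearMap.congr_fun h1 f
  rw [LinearMap.add_apply, Module.End.mul_apply, Module.End.mul_apply, hk, map_zero, add_zero,
    Module.End.one_apply] at h2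
  rw [mul_comm, map_mul, map_pow, Polynomial.aeval_algHom_apply] at *
  rw [Module.End.mul_apply]
  exact h2

/-- Polynomials invariant under the shifts are constant. -/
lemma eq_C_of_inv {f : MvPolynomial (Fin 2) F} (hf : ∀ i, dif i f = 0) :
    f = C (eval 0 f) := by
  have h1 : ∀ i, sh (Pi.single i 1) f = f := fun i => by
    have := hf i
    rwa [dif_apply, sub_eq_zero] at this
  have h2 : ∀ i (m : ℕ), sh (Pi.single i (m : ℤ)) f = f := by
    intro i m
    induction m with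
    | zero =>
      rw [Nat.cast_zero, Pi.single_zero, sh_zero]
    | succ m ih =>
      rw [Nat.cast_succ, Pi.single_add, ← sh_sh, h1, ih]
  have h3 : ∀ a b : ℕ, sh (Pi.single 0 (a : ℤ) + Pi.single 1 (b : ℤ)) f = f := by
    intro a b
    rw [← sh_sh, h2, h2]
  let s : Fin 2 → Set F := fun _ => Set.range (fun n : ℕ => -(n : F))
  have hs : ∀ i, (s i).Infinite := by
    intro i
    apply Set.infinite_range_of_injective
    intro a b hab
    simpa using hab
  apply MvPolynomial.funext_set s hs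
  intro x hx
  rw [eval_C]
  obtain ⟨a, ha⟩ := hx 0 trivial
  obtain ⟨b, hb⟩ := hx 1 trivial
  simp only at ha hb
  have h4 : ∀ v : Fin 2 → ℤ, ∀ f : MvPolynomial (Fin 2) F, eval 0 (sh v f) =
      eval (fun j => -((v j : ℤ) : F)) f := by
    intro v f
    have : (aeval (0 : Fin 2 → F) : MvPolynomial (Fin 2) F →ₐ[F] F).comp (sh v) =
        aeval (fun j => -((v j : ℤ) : F)) := by
      apply MvPolynomial.algHom_ext
      intro j
      simp
    have h5 := DFunLike.congr_fun this f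
    rw [AlgHom.comp_apply] at h5
    simpa [MvPolynomial.aeval_eq_eval] using h5
  have h5 := h4 (Pi.single 0 (a : ℤ) + Pi.single 1 (b : ℤ)) f
  rw [h3] at h5
  rw [h5]
  congr 2
  funext j
  fin_cases j
  · simp [← ha]
  · simp [← hb]

/-- Simplicity of the two-point module. -/
theorem simple (hg : Good lam bet) (R : Subalgebra F (Module.End F (MvPolynomial (Fin 2) F)))
    (hR : ∀ m, ee lam bet m ∈ R) (N : Submodule F (MvPolynomial (Fin 2) F))
    (hN : ∀ r ∈ R, ∀ f ∈ N, r f ∈ N) : N = ⊥ ∨ N = ⊤ := by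
  -- stability under the powers
  have hO : ∀ (g : OO F) (f : MvPolynomial (Fin 2) F), f ∈ N → rho lam hg.l0 g f ∈ N := by
    intro g f hf
    obtain ⟨a, ha⟩ := exists_div hg f 17
    have h1 : rho lam hg.l0 g f = rho lam hg.l0 (tt F ^ 17 * (g * a)) f := by
      have e : tt F ^ 17 * (g * a) = g * (tt F ^ 17 * a) := by ring
      rw [e, map_mul, Module.End.mul_apply, ha]
    rw [h1]
    exact hN _ (rho_mem hg R hR _) f hf
  have hPm : ∀ (i : Fin 2) (m : ℤ) (f : MvPolynomial (Fin 2) F), f ∈ N → Pm lam i m f ∈ N := by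
    intro i m f hf
    fin_cases i
    · have := hO (AddMonoidAlgebra.single (m, 0) 1) f hf
      rwa [rho_single, Pm_zero, mul_one, one_smul] at this
    · have := hO (AddMonoidAlgebra.single (0, m) 1) f hf
      rwa [rho_single, Pm_zero, one_mul, one_smul] at this
  have hdif : ∀ (i : Fin 2) (f : MvPolynomial (Fin 2) F), f ∈ N → dif i f ∈ N := by
    intro i f hf
    have h1 := N.smul_mem (lam i)⁻¹ (hPm i 1 f hf)
    rw [Pm_apply, zpow_one, smul_smul, inv_mul_cancel₀ (hg.l0 i), one_smul] at h1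
    rw [dif_apply]
    exact N.sub_mem h1 hf
  by_cases h0 : N = ⊥
  · exact Or.inl h0
  right
  -- an invariant element
  have h1 : ∃ f ∈ N, f ≠ 0 ∧ ∀ i, dif i f = 0 := by
    obtain ⟨f, hf, hf0⟩ := Submodule.exists_mem_ne_zero_of_ne_bot h0
    obtain ⟨n, hn⟩ := exists_Fil f
    induction n generalizing f with
    | zero =>
      exact absurd (by simpa [Fil] using hn) hf0
    | succ n ih =>
      by_cases hall : ∀ i, dif i f = 0
      · exact ⟨f, hf, hf0, hall⟩
      · push Not at hall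
        obtain ⟨i, hi⟩ := hall
        exact ih (dif i f) (hdif i f hf) hi ((mem_Fil_succ _ _).1 hn i)
  have h2 : (1 : MvPolynomial (Fin 2) F) ∈ N := by
    obtain ⟨f, hf, hf0, hfi⟩ := h1
    have h3 := eq_C_of_inv hfi
    have h4 : eval 0 f ≠ 0 := by
      intro h5
      rw [h5, C_0] at h3
      exact hf0 h3
    have h5 := N.smul_mem (eval 0 f)⁻¹ hf
    rw [h3, MvPolynomial.smul_eq_C_mul, ← C_mul] at h5
    simp only [eval_C] at h5
    rwa [inv_mul_cancel₀ h4, C_1] at h5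
  -- stability under multiplication
  have hX0 : ∀ f ∈ N, X 0 * f ∈ N := by
    intro f hf
    have g1 : Pm lam 0 1 (X 0 * f) - Pm lam 1 1 (X 0 * f) ∈ N := by
      have k1 := hN _ (hR 1) f hf
      have k2 := hPm 1 1 _ (hN _ (hR 0) f hf)
      have k3 := N.smul_mem (bet 0) (hPm 0 1 f hf)
      have k4 := N.smul_mem (bet 1) (hPm 1 1 f hf)
      have k5 := N.sub_mem (N.sub_mem (N.sub_mem k1 k3) k4) k2
      have k6 : (ee lam bet 1) f = Pm lam 0 1 (X 0 * f) + bet 0 • Pm lam 0 1 f +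
          (Pm lam 1 1 (X 1 * f) + bet 1 • Pm lam 1 1 f) := by
        rw [ee_eq]
        simp [Am, th_apply]
      have k7 : (ee lam bet 0) f = X 0 * f + X 1 * f := by
        rw [ee_eq]
        simp [Am, th_apply, Pm_zero]
      rw [k6, k7, map_add] at k5
      convert k5 using 1
      abel
    obtain ⟨a, ha⟩ := exists_div hg (X 0 * f) 17
    have e : tt F ^ 17 * a = (tt F ^ 16 * a) * tt F := by ring
    have ha' : rho lam hg.l0 (tt F ^ 16 * a) (rho lam hg.l0 (tt F) (X 0 * f)) = X 0 * f := by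
      rw [← Module.End.mul_apply, ← map_mul, ← e]
      exact ha
    rw [rho_tt, LinearMap.sub_apply] at ha'
    rw [← ha']
    exact hO _ _ g1
  have hX1 : ∀ f ∈ N, X 1 * f ∈ N := by
    intro f hf
    have k2 := hN _ (hR 0) f hf
    have k7 : (ee lam bet 0) f = X 0 * f + X 1 * f := by
      rw [ee_eq]
      simp [Am, th_apply, Pm_zero]
    rw [k7] at k2
    have := N.sub_mem k2 (hX0 f hf)
    rwa [add_sub_cancel_left] at this
  rw [Submodule.eq_top_iff']
  intro f
  induction f using MvPolynomial.induction_on with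
  | C a =>
    have := N.smul_mem a h2
    rwa [MvPolynomial.smul_eq_C_mul, mul_one] at this
  | add p q hp hq => exact N.add_mem hp hq
  | mul_X p j hp =>
    rw [mul_comm]
    fin_cases j
    · exact hX0 p hp
    · exact hX1 p hp

/-- `rho` is injective. -/
theorem rho_inj (hl : ∀ i, lam i ≠ 0) : Function.Injective (rho lam hl) := by
  rw [injective_iff_map_eq_zero]
  intro g hg
  let χ : ℤ × ℤ → (MvPolynomial (Fin 2) F →* MvPolynomial (Fin 2) F) := fun v =>
    ((sh (F := F) (Pi.single 0 v.1 + Pi.single 1 v.2 : Fin 2 → ℤ) : _ →ₐ[F] _) : _ →* _)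
  have hχ : Function.Injective χ := by
    intro v w hvw
    have h0 := DFunLike.congr_fun hvw (X 0)
    have h1 := DFunLike.congr_fun hvw (X 1)
    simp [χ] at h0 h1
    exact Prod.ext h0 h1
  have hli := (linearIndependent_monoidHom (MvPolynomial (Fin 2) F) (MvPolynomial (Fin 2) F)).comp χ hχ
  rw [linearIndependent_iff'] at hli
  have hev : ∀ f : MvPolynomial (Fin 2) F, rho lam hl g f =
      ∑ v ∈ g.coeff.support, C (g.coeff v * (lam 0 ^ v.1 * lam 1 ^ v.2)) * χ v f := by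
    intro f
    rw [rho, AddMonoidAlgebra.lift_apply, Finsupp.sum, LinearMap.sum_apply]
    refine Finset.sum_congr rfl fun v _ => ?_
    rw [LinearMap.smul_apply]
    change g.coeff v • (Pm lam 0 v.1 * Pm lam 1 v.2) f = _
    rw [Module.End.mul_apply, Pm_apply, Pm_apply, map_smul, sh_sh, smul_smul, smul_smul,
      MvPolynomial.smul_eq_C_mul, mul_assoc]
    rfl
  have h2 := hli g.coeff.support (fun v => C (g.coeff v * (lam 0 ^ v.1 * lam 1 ^ v.2))) (by
    funext f
    have h3 := hev f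
    rw [hg, LinearMap.zero_apply] at h3
    rw [Finset.sum_apply, Pi.zero_apply, h3]
    rfl)
  ext v
  by_contra hv
  have hv' : v ∈ g.coeff.support := by
    rw [Finsupp.mem_support_iff]
    simpa using hv
  have h3 := h2 v hv'
  rw [← C_0, MvPolynomial.C_inj] at h3
  rcases mul_eq_zero.1 h3 with h4 | h4
  · exact hv (by simpa using h4)
  · rcases mul_eq_zero.1 h4 with h5 | h5
    · exact zpow_ne_zero _ (hl 0) h5
    · exact zpow_ne_zero _ (hl 1) h5

end module

end Pool.Agent.V8H65.PW
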