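import Pool.Agent.V8H65.PW.NoEmb
import Pool.Agent.V8H65.PW.Simple

/-!
# The two-point primitive ideal is not the kernel of a map to a localised Weyl algebra
-/

set_option autoImplicit false
set_option linter.unusedSectionVars false

namespace Pool.Agent.V8H65.PW

open MvPolynomial

/-- A two-sided ideal is primitive if it is the annihilator of a simple left module. -/
def IsPrimitive {U : Type} [Ring U] (P : TwoSidedIdeal U) : Prop :=
  ∃ (M : Type) (_ : AddCommGroup M) (_ : Module U M), IsSimpleModule U M ∧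
    ∀ a : U, a ∈ P ↔ ∀ x : M, a • x = 0

section core

variable {F : Type} [Field F] [CharZero F] {U : Type} [Ring U] [Algebra F U]

lemma tt_ne_zero : tt F ≠ 0 := by
  intro h
  have h1 := congrArg (fun g : OO F => g.coeff (1, 0)) h
  simp [tt, AddMonoidAlgebra.coeff_single] at h1

/-- No map to the localised Weyl algebra has the same kernel as the two-point representation. -/
theorem no_map {lam bet : Fin 2 → F} (hg : Good lam bet)
    (ρ : U →ₐ[F] Module.End F (MvPolynomial (Fin 2) F)) (x : ℤ → U)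
    (hx : ∀ m, ρ (x m) = ee lam bet m) (k : ℕ) (ψ : U →ₐ[F] LocWeyl F k)
    (h : ∀ a, ρ a = 0 ↔ ψ a = 0) : False := by
  have hw : ∀ v : ℤ × ℤ, ∃ w : U, ρ w =
      rho lam hg.l0 (tt F ^ 17 * AddMonoidAlgebra.single v 1) := by
    intro v
    have := rho_mem hg ρ.range (fun m => ⟨x m, hx m⟩) (AddMonoidAlgebra.single v 1)
    exact this
  choose w hw using hw
  let W : OO F →ₗ[F] U := Finsupp.linearCombination F w ∘ₗ
    (AddMonoidAlgebra.coeffLinearEquiv F).toLinearMap
  have hW1 : ∀ (v : ℤ × ℤ) (c : F), W (AddMonoidAlgebra.single v c) = c • w v := by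
    intro v c
    change Finsupp.linearCombination F w (Finsupp.single v c) = _
    rw [Finsupp.linearCombination_single]
  have hW : ∀ g, ρ (W g) = rho lam hg.l0 (tt F ^ 17 * g) := by
    intro g
    induction g using AddMonoidAlgebra.induction_linear with
    | zero => rw [map_zero, map_zero, mul_zero, map_zero]
    | add f g hf hg' => rw [map_add, map_add, hf, hg', mul_add, map_add]
    | single v c =>
      rw [hW1, map_smul, hw, ← map_smul, ← mul_smul_comm, AddMonoidAlgebra.smul_single, smul_eq_mul,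
        mul_one]
  let Φ : OO F →ₗ[F] Module.End F (Lau F (Fin (k + 1))) :=
    ((LocWeyl F k).val.comp ψ).toLinearMap ∘ₗ W
  have hΦ : ∀ g, Φ g = (ψ (W g) : Module.End F (Lau F (Fin (k + 1)))) := fun g => rfl
  apply no_family Φ
  · rw [injective_iff_map_eq_zero]
    intro g hg0
    have h1 : ψ (W g) = 0 := Subtype.ext hg0
    rw [← h, hW] at h1
    have h2 := (rho_inj hg.l0) (h1.trans (map_zero _).symm)
    rcases mul_eq_zero.1 h2 with h3 | h3
    · exact absurd h3 (pow_ne_zero _ tt_ne_zero)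
    · exact h3
  · intro g
    exact (ψ (W g)).2
  · intro f g
    have h1 : ρ (W f * W g - W (f * g) * W 1) = 0 := by
      rw [map_sub, map_mul, map_mul, hW, hW, hW, hW, ← map_mul, ← map_mul, ← map_sub]
      have : tt F ^ 17 * f * (tt F ^ 17 * g) - tt F ^ 17 * (f * g) * (tt F ^ 17 * 1) = 0 := by ring
      rw [this, map_zero]
    rw [h, map_sub, sub_eq_zero, map_mul, map_mul] at h1
    exact congrArg (fun z : LocWeyl F k => (z : Module.End F (Lau F (Fin (k + 1))))) h1

/-- The annihilator of the two-point module is primitive. -/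
theorem prim {lam bet : Fin 2 → F} (hg : Good lam bet)
    (ρ : U →ₐ[F] Module.End F (MvPolynomial (Fin 2) F)) (x : ℤ → U)
    (hx : ∀ m, ρ (x m) = ee lam bet m) : IsPrimitive (TwoSidedIdeal.ker ρ) := by
  let _ : Module U (MvPolynomial (Fin 2) F) := Module.compHom _ ρ.toRingHom
  have hsm : ∀ (u : U) (f : MvPolynomial (Fin 2) F), u • f = ρ u f := fun u f => rfl
  refine ⟨MvPolynomial (Fin 2) F, inferInstance, inferInstance, ?_, ?_⟩
  · refine { exists_pair_ne := ⟨⊥, ⊤, bot_ne_top⟩, eq_bot_or_eq_top := ?_ }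
    intro N
    let N' : Submodule F (MvPolynomial (Fin 2) F) :=
      { carrier := N
        add_mem' := fun ha hb => N.add_mem ha hb
        zero_mem' := N.zero_mem
        smul_mem' := fun c f hf => by
          have h1 := N.smul_mem (algebraMap F U c) hf
          rw [hsm, AlgHom.commutes, Module.algebraMap_end_apply] at h1
          exact h1 }
    rcases simple hg ρ.range (fun m => ⟨x m, hx m⟩) N' (by
      rintro _ ⟨u, rfl⟩ f hf
      exact N.smul_mem u hf) with h | h
    · left
      rw [Submodule.eq_bot_iff]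
      intro f hf
      have : f ∈ N' := hf
      rw [h] at this
      exact (Submodule.mem_bot F).1 this
    · right
      rw [Submodule.eq_top_iff']
      intro f
      have : f ∈ N' := by rw [h]; trivial
      exact this
  · intro a
    rw [TwoSidedIdeal.mem_ker]
    constructor
    · intro h f
      rw [hsm, h, LinearMap.zero_apply]
    · intro h
      exact LinearMap.ext fun f => h f

/-- The three-point test element. -/
noncomputable def test (F : Type) [Field F] {U : Type} [Ring U] [Algebra F U] (x : ℤ → U) : U :=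
  (VV F : Module.End F (Q4 U)) (fun l m n _ => x l * x m * x n) 0 0 0 0

lemma map_VV {U' : Type} [Ring U'] [Algebra F U'] (ρ : U →ₐ[F] U') (G : Q4 U) (l m n r : ℤ) :
    ρ ((VV F : Module.End F (Q4 U)) G l m n r) =
      (VV F : Module.End F (Q4 U')) (fun l m n r => ρ (G l m n r)) l m n r := by
  have key : ∀ (X : Module.End F (Q4 U)) (X' : Module.End F (Q4 U')),
      (∀ (G : Q4 U) l m n r, ρ (X G l m n r) = X' (fun l m n r => ρ (G l m n r)) l m n r) →
      ∀ (j : ℕ) (G : Q4 U) l m n r,
        ρ ((X ^ j) G l m n r) = (X' ^ j) (fun l m n r => ρ (G l m n r)) l m n r := by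
    intro X X' h j
    induction j with
    | zero => intro G l m n r; simp
    | succ j ih =>
      intro G l m n r
      have e : (fun l m n r => ρ (X G l m n r)) = X' (fun l m n r => ρ (G l m n r)) := by
        funext l m n r
        exact h G l m n r
      rw [pow_succ, pow_succ, Module.End.mul_apply, Module.End.mul_apply, ih, e]
  have h12 := key (X12 F) (X12 F) (fun G l m n r => map_sub ρ _ _)
  have h13 := key (X13 F) (X13 F) (fun G l m n r => map_sub ρ _ _)
  have h23 := key (X23 F) (X23 F) (fun G l m n r => map_sub ρ _ _)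
  simp only [VV, Module.End.mul_apply]
  rw [h12]
  simp only [h13, h23]

lemma test_two {lam bet : Fin 2 → F} (hl : ∀ i, lam i ≠ 0)
    (ρ : U →ₐ[F] Module.End F (MvPolynomial (Fin 2) F)) (x : ℤ → U)
    (hx : ∀ m, ρ (x m) = ee lam bet m) : ρ (test F x) = 0 := by
  rw [test, map_VV]
  simp only [map_mul, hx, ee]
  have hs : (fun l m n _ => (∑ i, Am lam bet i l) * (∑ i, Am lam bet i m) *
      (∑ i, Am lam bet i n) : Q4 (Module.End F (MvPolynomial (Fin 2) F))) =
      ∑ i : Fin 2, ∑ j : Fin 2, ∑ k : Fin 2,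
        (fun l m n _ => Am lam bet i l * Am lam bet j m * Am lam bet k n :
          Q4 (Module.End F (MvPolynomial (Fin 2) F))) := by
    funext l m n r
    simp only [Finset.sum_apply, Finset.sum_mul, Finset.mul_sum]
    simp only [Fin.sum_univ_two]
    abel
  let ev : Q4 (Module.End F (MvPolynomial (Fin 2) F)) →+ (Module.End F (MvPolynomial (Fin 2) F)) :=
    AddMonoidHom.mk' (fun G => (VV F : Module.End F (Q4 (Module.End F (MvPolynomial (Fin 2) F))))
      G 0 0 0 0) (fun x y => by rw [LinearMap.map_add]; rfl)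
  have hev : ∀ G, (VV F : Module.End F (Q4 (Module.End F (MvPolynomial (Fin 2) F)))) G 0 0 0 0 =
    ev G := fun G => rfl
  rw [hev, hs, map_sum]
  simp only [map_sum]
  refine Finset.sum_eq_zero fun i _ => Finset.sum_eq_zero fun j _ => Finset.sum_eq_zero fun k _ => ?_
  rw [← hev, VV_zero (fam_Am hl bet) (fun i j h => two_Am lam bet h) i j k (by
    fin_cases i <;> fin_cases j <;> fin_cases k <;> simp)]
  rfl

lemma inj_pow_sub {I : Type} [DecidableEq I] {lam : I → F} {i j : I} (h : lam i ≠ lam j) (n : ℕ)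
    (f : MvPolynomial I F) (hf : ((Pm lam i 1 - Pm lam j 1) ^ n) f = 0) : f = 0 := by
  induction n with
  | zero => simpa using hf
  | succ n ih =>
    rw [pow_succ', Module.End.mul_apply] at hf
    exact ih (inj_Pm_sub h _ hf)

lemma test_three {lam : Fin 3 → F} (hl : ∀ i, lam i ≠ 0) (hl' : Function.Injective lam)
    (ρ : U →ₐ[F] Module.End F (MvPolynomial (Fin 3) F)) (x : ℤ → U)
    (hx : ∀ m, ρ (x m) = ∑ i, Am lam 0 i m) : ρ (test F x) ≠ 0 := by
  rw [test, map_VV]
  simp only [map_mul, hx]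
  rw [three_point (fam_Am hl 0) (fun i j h => two_Am lam 0 h) (fun i l => by
    simp only [Am, Pi.zero_apply, zero_mul, zero_smul, add_zero]
    rw [← mul_assoc, Pm_mul hl, add_comm])]
  intro h
  have h1 := LinearMap.congr_fun h 1
  rw [LinearMap.zero_apply, LinearMap.smul_apply, smul_eq_zero] at h1
  rcases h1 with h1 | h1
  · norm_num at h1
  · rw [Module.End.mul_apply, Module.End.mul_apply, Module.End.mul_apply] at h1
    have h2 := inj_pow_sub (hl'.ne (by decide)) 4 _ (inj_pow_sub (hl'.ne (by decide)) 4 _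
      (inj_pow_sub (hl'.ne (by decide)) 4 _ h1))
    simp [Am, Pm_zero, th_apply] at h2

/-- The main construction. -/
theorem core (x : ℤ → U) (Z : Set U)
    (hrep : ∀ (A : Type) [Ring A] [Algebra F A] (E0 : ℤ → A),
      (∀ m n, E0 m * E0 n - E0 n * E0 m = ((n - m : ℤ) : F) • E0 (m + n)) →
      ∃ ρ : U →ₐ[F] A, (∀ m, ρ (x m) = E0 m) ∧ ∀ z ∈ Z, ρ z = 0) :
    ∃ Q : TwoSidedIdeal U, IsPrimitive Q ∧ (∀ z ∈ Z, z ∈ Q) ∧ Q ≠ TwoSidedIdeal.span Z ∧
      ∀ (k : ℕ) (φ : U →ₐ[F] LocWeyl F k), ¬ ∀ a, a ∈ Q ↔ φ a = 0 := by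
  have hg : Good (F := F) ![1, 2] ![2, 3] := by
    refine ⟨?_, ?_, ?_, ?_, ?_⟩
    · intro i; fin_cases i <;> simp
    · norm_num
    · intro i; fin_cases i <;> norm_num
    · intro i; fin_cases i <;> norm_num
    · norm_num
  obtain ⟨ρ, hρ, hρZ⟩ := hrep _ (ee ![1, 2] ![2, 3]) (witt_rel hg.l0 _)
  have hl3 : ∀ i, (![1, 2, 3] : Fin 3 → F) i ≠ 0 := by
    intro i; fin_cases i <;> norm_num
  have hl3' : Function.Injective (![1, 2, 3] : Fin 3 → F) := by
    intro i j
    fin_cases i <;> fin_cases j <;> norm_num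
  obtain ⟨ρ3, hρ3, hρ3Z⟩ := hrep _ (fun m => ∑ i, Am (![1, 2, 3] : Fin 3 → F) 0 i m)
    (witt_rel hl3 _)
  refine ⟨TwoSidedIdeal.ker ρ, prim hg ρ x hρ, fun z hz => (TwoSidedIdeal.mem_ker ρ).2 (hρZ z hz),
    ?_, ?_⟩
  · intro h
    have h1 : test F x ∈ TwoSidedIdeal.span Z := by
      rw [← h, TwoSidedIdeal.mem_ker]
      exact test_two hg.l0 ρ x hρ
    have h2 : TwoSidedIdeal.span Z ≤ TwoSidedIdeal.ker ρ3 := by
      rw [TwoSidedIdeal.span_le]
      intro z hz
      exact (TwoSidedIdeal.mem_ker ρ3).2 (hρ3Z z hz)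
    exact test_three hl3 hl3' ρ3 x hρ3 ((TwoSidedIdeal.mem_ker ρ3).1 (h2 h1))
  · intro k φ h
    refine no_map hg ρ x hρ k φ fun a => ?_
    rw [← h, TwoSidedIdeal.mem_ker]

end core

end Pool.Agent.V8H65.PW
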