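import Mathlib

/-!
# Difference operators on functions of four integers

Two commuting families `A, B` (the modes of two points), with `P, Q` the corresponding powers.  A suitable
iterated difference of `e_l e_m e_n e_r`, where `e = A + B`, is
`c c' (P_1 - Q_1)^8 (P_{m+n+2} Q_{l+r+2} + Q_{m+n+2} P_{l+r+2})`.
-/

set_option autoImplicit false
set_option linter.unusedSectionVars false

namespace Pool.Agent.V8H65.PW

/-- Functions of four integers. -/
abbrev Q4 (E : Type*) := ℤ → ℤ → ℤ → ℤ → E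

section ops

variable (F : Type*) [Field F] {E : Type*} [Ring E] [Algebra F E]

/-- Shift of the first argument. -/
def U1 : Module.End F (Q4 E) where
  toFun G := fun l m n r => G (l + 1) m n r
  map_add' _ _ := rfl
  map_smul' _ _ := rfl

/-- Shift of the second argument. -/
def U2 : Module.End F (Q4 E) where
  toFun G := fun l m n r => G l (m + 1) n r
  map_add' _ _ := rfl
  map_smul' _ _ := rfl

/-- Shift of the third argument. -/
def U3 : Module.End F (Q4 E) where
  toFun G := fun l m n r => G l m (n + 1) r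
  map_add' _ _ := rfl
  map_smul' _ _ := rfl

/-- Shift of the fourth argument. -/
def U4 : Module.End F (Q4 E) where
  toFun G := fun l m n r => G l m n (r + 1)
  map_add' _ _ := rfl
  map_smul' _ _ := rfl

/-- Left multiplication by `a`. -/
def Lm (a : E) : Module.End F (Q4 E) where
  toFun G := fun l m n r => a * G l m n r
  map_add' _ _ := by
    funext l m n r
    simp [mul_add]
  map_smul' _ _ := by
    funext l m n r
    simp

/-- Right multiplication by `a`. -/
def Rm (a : E) : Module.End F (Q4 E) where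
  toFun G := fun l m n r => G l m n r * a
  map_add' _ _ := by
    funext l m n r
    simp [add_mul]
  map_smul' _ _ := by
    funext l m n r
    simp

@[simp] lemma U1_apply (G : Q4 E) (l m n r : ℤ) : U1 F G l m n r = G (l + 1) m n r := rfl
@[simp] lemma U2_apply (G : Q4 E) (l m n r : ℤ) : U2 F G l m n r = G l (m + 1) n r := rfl
@[simp] lemma U3_apply (G : Q4 E) (l m n r : ℤ) : U3 F G l m n r = G l m (n + 1) r := rfl
@[simp] lemma U4_apply (G : Q4 E) (l m n r : ℤ) : U4 F G l m n r = G l m n (r + 1) := rfl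
@[simp] lemma Lm_apply (a : E) (G : Q4 E) (l m n r : ℤ) : Lm F a G l m n r = a * G l m n r := rfl

lemma c12 : Commute (U1 F : Module.End F (Q4 E)) (U2 F) := rfl
lemma c13 : Commute (U1 F : Module.End F (Q4 E)) (U3 F) := rfl
lemma c14 : Commute (U1 F : Module.End F (Q4 E)) (U4 F) := rfl
lemma c23 : Commute (U2 F : Module.End F (Q4 E)) (U3 F) := rfl
lemma c24 : Commute (U2 F : Module.End F (Q4 E)) (U4 F) := rfl
lemma c34 : Commute (U3 F : Module.End F (Q4 E)) (U4 F) := rfl
lemma cL1 (a : E) : Commute (Lm F a : Module.End F (Q4 E)) (U1 F) := rfl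
lemma cL2 (a : E) : Commute (Lm F a : Module.End F (Q4 E)) (U2 F) := rfl
lemma cL3 (a : E) : Commute (Lm F a : Module.End F (Q4 E)) (U3 F) := rfl
lemma cL4 (a : E) : Commute (Lm F a : Module.End F (Q4 E)) (U4 F) := rfl

/-- The difference `U1 - U2`. -/
def X12 : Module.End F (Q4 E) := U1 F - U2 F
/-- The difference `U1 - U3`. -/
def X13 : Module.End F (Q4 E) := U1 F - U3 F
/-- The difference `U2 - U3`. -/
def X23 : Module.End F (Q4 E) := U2 F - U3 F
/-- The difference `U1 - U4`. -/
def X14 : Module.End F (Q4 E) := U1 F - U4 F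
/-- The difference `U2 - U4`. -/
def X24 : Module.End F (Q4 E) := U2 F - U4 F

lemma x12_13 : Commute (X12 F : Module.End F (Q4 E)) (X13 F) :=
  Commute.sub_left (Commute.sub_right (Commute.refl _) (c13 F)) (Commute.sub_right (c12 F).symm (c23 F))
lemma x12_23 : Commute (X12 F : Module.End F (Q4 E)) (X23 F) :=
  Commute.sub_left (Commute.sub_right (c12 F) (c13 F)) (Commute.sub_right (Commute.refl _) (c23 F))
lemma x12_14 : Commute (X12 F : Module.End F (Q4 E)) (X14 F) :=
  Commute.sub_left (Commute.sub_right (Commute.refl _) (c14 F)) (Commute.sub_right (c12 F).symm (c24 F))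
lemma x12_24 : Commute (X12 F : Module.End F (Q4 E)) (X24 F) :=
  Commute.sub_left (Commute.sub_right (c12 F) (c14 F)) (Commute.sub_right (Commute.refl _) (c24 F))
lemma x13_23 : Commute (X13 F : Module.End F (Q4 E)) (X23 F) :=
  Commute.sub_left (Commute.sub_right (c12 F) (c13 F))
    (Commute.sub_right (c23 F).symm (Commute.refl _))
lemma x13_14 : Commute (X13 F : Module.End F (Q4 E)) (X14 F) :=
  Commute.sub_left (Commute.sub_right (Commute.refl _) (c14 F))
    (Commute.sub_right (c13 F).symm (c34 F))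
lemma x13_24 : Commute (X13 F : Module.End F (Q4 E)) (X24 F) :=
  Commute.sub_left (Commute.sub_right (c12 F) (c14 F)) (Commute.sub_right (c23 F).symm (c34 F))
lemma x23_14 : Commute (X23 F : Module.End F (Q4 E)) (X14 F) :=
  Commute.sub_left (Commute.sub_right (c12 F).symm (c24 F)) (Commute.sub_right (c13 F).symm (c34 F))
lemma x23_24 : Commute (X23 F : Module.End F (Q4 E)) (X24 F) :=
  Commute.sub_left (Commute.sub_right (Commute.refl _) (c24 F))
    (Commute.sub_right (c23 F).symm (c34 F))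
lemma x14_24 : Commute (X14 F : Module.End F (Q4 E)) (X24 F) :=
  Commute.sub_left (Commute.sub_right (c12 F) (c14 F)) (Commute.sub_right (c24 F).symm (Commute.refl _))

/-- The operator for two points. -/
def WW : Module.End F (Q4 E) :=
  X12 F ^ 3 * X13 F ^ 3 * X24 F ^ 2 * X14 F ^ 2 * X23 F ^ 2

lemma WW_12 : (WW F : Module.End F (Q4 E)) =
    (X13 F ^ 3 * X24 F ^ 2 * X14 F ^ 2 * X23 F ^ 2) * X12 F ^ 3 := by
  have h : Commute (X12 F ^ 3 : Module.End F (Q4 E))
      (X13 F ^ 3 * X24 F ^ 2 * X14 F ^ 2 * X23 F ^ 2) :=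
    ((((x12_13 F).pow_pow 3 3).mul_right ((x12_24 F).pow_pow 3 2)).mul_right
      ((x12_14 F).pow_pow 3 2)).mul_right ((x12_23 F).pow_pow 3 2)
  rw [← h.eq, WW]
  simp only [mul_assoc]

lemma WW_13 : (WW F : Module.End F (Q4 E)) =
    (X12 F ^ 3 * X24 F ^ 2 * X14 F ^ 2 * X23 F ^ 2) * X13 F ^ 3 := by
  have h : Commute (X13 F ^ 3 : Module.End F (Q4 E))
      (X24 F ^ 2 * X14 F ^ 2 * X23 F ^ 2) :=
    (((x13_24 F).pow_pow 3 2).mul_right
      ((x13_14 F).pow_pow 3 2)).mul_right ((x13_23 F).pow_pow 3 2)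
  rw [WW]
  calc _ = X12 F ^ 3 * (X13 F ^ 3 * (X24 F ^ 2 * X14 F ^ 2 * X23 F ^ 2)) := by
        simp only [mul_assoc]
    _ = X12 F ^ 3 * ((X24 F ^ 2 * X14 F ^ 2 * X23 F ^ 2) * X13 F ^ 3) := by rw [h.eq]
    _ = _ := by simp only [mul_assoc]

lemma WW_24 : (WW F : Module.End F (Q4 E)) =
    (X12 F ^ 3 * X13 F ^ 3 * X14 F ^ 2) * X24 F ^ 2 * X23 F ^ 2 := by
  have h : Commute (X24 F ^ 2 : Module.End F (Q4 E)) (X14 F ^ 2) :=
    ((x14_24 F).symm.pow_pow 2 2)
  rw [WW]
  calc _ = X12 F ^ 3 * X13 F ^ 3 * (X24 F ^ 2 * X14 F ^ 2) * X23 F ^ 2 := by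
        simp only [mul_assoc]
    _ = X12 F ^ 3 * X13 F ^ 3 * (X14 F ^ 2 * X24 F ^ 2) * X23 F ^ 2 := by rw [h.eq]
    _ = _ := by simp only [mul_assoc]

end ops

section fam

variable {F : Type*} [Field F] {E : Type*} [Ring E] [Algebra F E]

/-- The modes `A` and powers `P` of one point. -/
structure Fam (c : F) (P A : ℤ → E) : Prop where
  P0 : P 0 = 1
  PP : ∀ m n, P m * P n = P (m + n)
  AA : ∀ m n, A (m + 2) * A n - 2 • (A (m + 1) * A (n + 1)) + A m * A (n + 2) = c • P (m + n + 2)
  PA : ∀ m n, P (m + 2) * A n - 2 • (P (m + 1) * A (n + 1)) + P m * A (n + 2) = 0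

/-- Two commuting points. -/
structure Two (P A Q B : ℤ → E) : Prop where
  AB : ∀ m n, A m * B n = B n * A m
  AQ : ∀ m n, A m * Q n = Q n * A m
  PB : ∀ m n, P m * B n = B n * P m
  PQ : ∀ m n, P m * Q n = Q n * P m

lemma Two.symm {P A Q B : ℤ → E} (h : Two P A Q B) : Two Q B P A :=
  ⟨fun m n => (h.AB n m).symm, fun m n => (h.PB n m).symm, fun m n => (h.AQ n m).symm,
    fun m n => (h.PQ n m).symm⟩

lemma Fam.AAA {c : F} {P A : ℤ → E} (h : Fam c P A) (m n : ℤ) :
    A (m + 3) * A n - 3 • (A (m + 2) * A (n + 1)) + 3 • (A (m + 1) * A (n + 2)) -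
      A m * A (n + 3) = 0 := by
  have h1 := h.AA (m + 1) n
  have h2 := h.AA m (n + 1)
  have e : m + 1 + n + 2 = m + (n + 1) + 2 := by ring
  rw [e] at h1
  rw [← h2] at h1
  have e1 : m + 1 + 2 = m + 3 := by ring
  have e2 : m + 1 + 1 = m + 2 := by ring
  have e3 : n + 1 + 1 = n + 2 := by ring
  have e4 : n + 1 + 2 = n + 3 := by ring
  rw [e1, e2, e3, e4] at h1
  rw [← sub_eq_zero] at h1
  rw [← h1]
  abel

lemma kill12 {c : F} {P A : ℤ → E} (h : Fam c P A) (g : ℤ → ℤ → E) :
    (X12 F ^ 3) (fun l m n r => A l * A m * g n r) = 0 := by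
  funext l m n r
  have h1 := h.AAA l m
  simp only [X12, pow_succ, pow_zero, one_mul, Module.End.mul_apply, LinearMap.sub_apply,
    Pi.sub_apply, U1_apply, U2_apply, add_assoc, Int.reduceAdd, Pi.zero_apply] at h1 ⊢
  rw [← zero_mul (g n r), ← h1]
  simp only [sub_mul, add_mul, smul_mul_assoc]
  abel

lemma kill13 {c : F} {P A Q B : ℤ → E} (h : Fam c P A) (h2 : Two P A Q B) (g : ℤ → E) :
    (X13 F ^ 3) (fun l m n r => A l * B m * A n * g r) = 0 := by
  funext l m n r
  have h1 := h.AAA l n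
  have hc : ∀ a b : ℤ, A a * B m * A b * g r = A a * A b * (B m * g r) := by
    intro a b
    rw [mul_assoc (A a), ← h2.AB b m]
    simp only [mul_assoc]
  simp only [X13, pow_succ, pow_zero, one_mul, Module.End.mul_apply, LinearMap.sub_apply,
    Pi.sub_apply, U1_apply, U3_apply, add_assoc, Int.reduceAdd, Pi.zero_apply, hc] at h1 ⊢
  rw [← zero_mul (B m * g r), ← h1]
  simp only [sub_mul, add_mul, smul_mul_assoc]
  abel

lemma do23 {c : F} {Q B : ℤ → E} (h : Fam c Q B) (A g : ℤ → E) :
    (X23 F ^ 2) (fun l m n r => A l * B m * B n * g r) =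
      c • (fun l m n r => A l * Q (m + n + 2) * g r) := by
  funext l m n r
  have h1 := h.AA m n
  simp only [X23, pow_succ, pow_zero, one_mul, Module.End.mul_apply, LinearMap.sub_apply,
    Pi.sub_apply, U2_apply, U3_apply, add_assoc, Int.reduceAdd, Pi.smul_apply] at h1 ⊢
  have h3 : A l * (c • Q (m + (n + 2))) * g r = c • (A l * Q (m + (n + 2)) * g r) := by
    rw [mul_smul_comm, smul_mul_assoc]
  rw [← h3, ← h1]
  noncomm_ring

lemma kill24 {c : F} {Q B : ℤ → E} (h : Fam c Q B) (A : ℤ → E) :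
    (X24 F ^ 2) (fun l m n r => A l * Q (m + n + 2) * B r) = 0 := by
  funext l m n r
  have h1 := h.PA (m + n + 2) r
  simp only [X24, pow_succ, pow_zero, one_mul, Module.End.mul_apply, LinearMap.sub_apply,
    Pi.sub_apply, U2_apply, U4_apply, Pi.zero_apply]
  have e1 : m + n + 2 + 2 = m + 1 + 1 + n + 2 := by ring
  have e2 : m + n + 2 + 1 = m + 1 + n + 2 := by ring
  have e3 : r + 2 = r + 1 + 1 := by ring
  rw [e1, e2, e3] at h1
  have h3 : A l * (0 : E) = 0 := mul_zero _
  rw [← h3, ← h1]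
  noncomm_ring

lemma do14 {c : F} {P A Q B : ℤ → E} (h : Fam c P A) (h2 : Two P A Q B) :
    (X14 F ^ 2) (fun l m n r => A l * Q (m + n + 2) * A r) =
      c • (fun l m n r => Q (m + n + 2) * P (l + r + 2)) := by
  funext l m n r
  have h1 := h.AA l r
  simp only [X14, pow_succ, pow_zero, one_mul, Module.End.mul_apply, LinearMap.sub_apply,
    Pi.sub_apply, U1_apply, U4_apply, Pi.smul_apply]
  have e1 : l + 2 = l + 1 + 1 := by ring
  have e3 : r + 2 = r + 1 + 1 := by ring
  rw [e1, e3] at h1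
  have h3 : Q (m + n + 2) * (c • P (l + r + 2)) = c • (Q (m + n + 2) * P (l + r + 2)) := by
    rw [mul_smul_comm]
  rw [← h3, ← h1, h2.AQ, h2.AQ, h2.AQ]
  noncomm_ring

lemma pow_Lm {X : Module.End F (Q4 E)} {a : E} {G : Q4 E} (hX : Commute (Lm F a) X)
    (h : X G = Lm F a G) (k : ℕ) : (X ^ k) G = Lm F (a ^ k) G := by
  induction k with
  | zero =>
    funext l m n r
    simp
  | succ k ih =>
    rw [pow_succ', Module.End.mul_apply, ih]
    have h1 : X (Lm F (a ^ k) G) = Lm F (a ^ k) (X G) := by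
      have h2 : ∀ j : ℕ, Commute (Lm F (a ^ j)) X := by
        intro j
        have h3 : (Lm F (a ^ j) : Module.End F (Q4 E)) = Lm F a ^ j := by
          induction j with
          | zero =>
            refine LinearMap.ext fun G => ?_
            funext l m n r
            simp
          | succ j ihj =>
            rw [pow_succ' (Lm F a), ← ihj]
            refine LinearMap.ext fun G => ?_
            funext l m n r
            simp [pow_succ', mul_assoc]
        rw [h3]
        exact hX.pow_left j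
      exact (LinearMap.congr_fun (h2 k).eq G).symm
    rw [h1, h]
    funext l m n r
    simp [pow_succ, mul_assoc]

lemma final8 {c c' : F} {P A Q B : ℤ → E} (hP : Fam c P A) (hQ : Fam c' Q B) (h2 : Two P A Q B) :
    (X12 F ^ 3 * X13 F ^ 3 * X24 F ^ 2 : Module.End F (Q4 E))
      (fun l m n r => Q (m + n + 2) * P (l + r + 2)) =
      fun l m n r => (P 1 - Q 1) ^ 8 * (Q (m + n + 2) * P (l + r + 2)) := by
  set G : Q4 E := fun l m n r => Q (m + n + 2) * P (l + r + 2) with hG
  have hPs : ∀ a b : ℤ, Q a * P (b + 1) = P 1 * (Q a * P b) := by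
    intro a b
    rw [add_comm b 1, ← hP.PP, ← mul_assoc, ← h2.PQ, mul_assoc]
  have hQs : ∀ a b : ℤ, Q (a + 1) * P b = Q 1 * (Q a * P b) := by
    intro a b
    rw [add_comm a 1, ← hQ.PP, mul_assoc]
  have u1 : U1 F G = Lm F (P 1) G := by
    funext l m n r
    simp only [U1_apply, Lm_apply, hG, ← hPs]
    congr 2
    ring
  have u4 : U4 F G = Lm F (P 1) G := by
    funext l m n r
    simp only [U4_apply, Lm_apply, hG, ← hPs]
    congr 2
    ring
  have u2 : U2 F G = Lm F (Q 1) G := by
    funext l m n r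
    simp only [U2_apply, Lm_apply, hG, ← hQs]
    congr 2
    ring
  have u3 : U3 F G = Lm F (Q 1) G := by
    funext l m n r
    simp only [U3_apply, Lm_apply, hG, ← hQs]
    congr 2
    ring
  have hL : ∀ a b : E, Lm F (a - b) G = Lm F a G - Lm F b G := by
    intro a b
    funext l m n r
    simp [sub_mul]
  have x12 : X12 F G = Lm F (P 1 - Q 1) G := by
    rw [X12, LinearMap.sub_apply, u1, u2, hL]
  have x13 : X13 F G = Lm F (P 1 - Q 1) G := by
    rw [X13, LinearMap.sub_apply, u1, u3, hL]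
  have x24 : X24 F G = Lm F (Q 1 - P 1) G := by
    rw [X24, LinearMap.sub_apply, u2, u4, hL]
  have p24 : (X24 F ^ 2) G = Lm F ((Q 1 - P 1) ^ 2) G := pow_Lm (Commute.sub_right (cL2 F (Q 1 - P 1)) (cL4 F (Q 1 - P 1))) x24 2
  have p13 : (X13 F ^ 3) G = Lm F ((P 1 - Q 1) ^ 3) G := pow_Lm (Commute.sub_right (cL1 F (P 1 - Q 1)) (cL3 F (P 1 - Q 1))) x13 3
  have p12 : (X12 F ^ 3) G = Lm F ((P 1 - Q 1) ^ 3) G := pow_Lm (Commute.sub_right (cL1 F (P 1 - Q 1)) (cL2 F (P 1 - Q 1))) x12 3
  have hc3 : ∀ (a : E) (k : ℕ), (X13 F ^ k) (Lm F a G) = Lm F a ((X13 F ^ k) G) := fun a k =>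
    (LinearMap.congr_fun ((Commute.sub_right (cL1 F a) (cL3 F a)).pow_right k).eq G).symm
  have hc2 : ∀ (a : E) (k : ℕ) (G : Q4 E), (X12 F ^ k) (Lm F a G) = Lm F a ((X12 F ^ k) G) :=
    fun a k G =>
    (LinearMap.congr_fun ((Commute.sub_right (cL1 F a) (cL2 F a)).pow_right k).eq G).symm
  rw [Module.End.mul_apply, Module.End.mul_apply, p24, hc3, p13, hc2, hc2, p12]
  funext l m n r
  simp only [Lm_apply, hG]
  rw [← mul_assoc, ← mul_assoc]
  congr 1
  have hn : (Q 1 - P 1) ^ 2 = (P 1 - Q 1) ^ 2 := by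
    rw [← neg_sub, neg_sq]
  rw [hn, ← pow_add, ← pow_add]

/-- The half identity. -/
lemma half {c c' : F} {P A Q B : ℤ → E} (hP : Fam c P A) (hQ : Fam c' Q B) (h2 : Two P A Q B) :
    (WW F) (fun l m n r => A l * (A m + B m) * (A n + B n) * (A r + B r)) =
      (c * c') • fun l m n r => (P 1 - Q 1) ^ 8 * (Q (m + n + 2) * P (l + r + 2)) := by
  have h : (fun l m n r => A l * (A m + B m) * (A n + B n) * (A r + B r) : Q4 E) =
      (fun l m n r => A l * A m * ((A n + B n) * (A r + B r))) +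
      (fun l m n r => A l * B m * A n * (A r + B r)) +
      (fun l m n r => A l * B m * B n * B r) + (fun l m n r => A l * B m * B n * A r) := by
    funext l m n r
    simp only [Pi.add_apply]
    noncomm_ring
  rw [h, map_add, map_add, map_add]
  have k1 : WW F (fun l m n r => A l * A m * ((A n + B n) * (A r + B r))) = 0 := by
    rw [WW_12, Module.End.mul_apply, kill12 hP (fun n r => (A n + B n) * (A r + B r)), LinearMap.map_zero]
  have k2 : WW F (fun l m n r => A l * B m * A n * (A r + B r)) = 0 := by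
    rw [WW_13, Module.End.mul_apply, kill13 hP h2 (fun r => A r + B r), LinearMap.map_zero]
  have k3 : WW F (fun l m n r => A l * B m * B n * B r) = 0 := by
    rw [WW_24, Module.End.mul_apply, Module.End.mul_apply, do23 hQ, map_smul, kill24 hQ, smul_zero,
      LinearMap.map_zero]
  have k4 : WW F (fun l m n r => A l * B m * B n * A r) =
      (c * c') • fun l m n r => (P 1 - Q 1) ^ 8 * (Q (m + n + 2) * P (l + r + 2)) := by
    rw [WW, Module.End.mul_apply, Module.End.mul_apply, do23 hQ, map_smul, do14 hP h2, map_smul,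
      map_smul, final8 hP hQ h2, smul_smul, mul_comm c' c]
  rw [k1, k2, k3, k4]
  simp

/-- The two-point identity. -/
theorem two_point {c c' : F} {P A Q B : ℤ → E} (hP : Fam c P A) (hQ : Fam c' Q B)
    (h2 : Two P A Q B) :
    (WW F) (fun l m n r => (A l + B l) * (A m + B m) * (A n + B n) * (A r + B r)) =
      (c * c') • fun l m n r => (P 1 - Q 1) ^ 8 *
        (Q (m + n + 2) * P (l + r + 2) + P (m + n + 2) * Q (l + r + 2)) := by
  have h : (fun l m n r => (A l + B l) * (A m + B m) * (A n + B n) * (A r + B r) : Q4 E) =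
      (fun l m n r => A l * (A m + B m) * (A n + B n) * (A r + B r)) +
      (fun l m n r => B l * (B m + A m) * (B n + A n) * (B r + A r)) := by
    funext l m n r
    simp only [Pi.add_apply]
    noncomm_ring
  rw [h, map_add, half hP hQ h2, half hQ hP h2.symm]
  funext l m n r
  simp only [Pi.add_apply, Pi.smul_apply]
  have hn : (Q 1 - P 1) ^ 8 = (P 1 - Q 1) ^ 8 := by
    rw [← neg_sub, Even.neg_pow (by decide)]
  rw [hn, mul_comm c' c, mul_add, smul_add]

/-- Membership in a subalgebra is preserved by `WW`. -/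
lemma WW_mem (R : Submodule F E) {G : Q4 E} (hG : ∀ l m n r, G l m n r ∈ R) :
    ∀ l m n r, WW F G l m n r ∈ R := by
  have key : ∀ X ∈ ({X12 F, X13 F, X23 F, X14 F, X24 F} : Set (Module.End F (Q4 E))),
      ∀ (k : ℕ) (G : Q4 E), (∀ l m n r, G l m n r ∈ R) → ∀ l m n r, (X ^ k) G l m n r ∈ R := by
    intro X hX k
    induction k with
    | zero => intro G hG; simpa using hG
    | succ k ih =>
      intro G hG
      rw [pow_succ, Module.End.mul_apply]
      apply ih
      intro l m n r
      simp only [Set.mem_insert_iff, Set.mem_singleton_iff] at hX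
      rcases hX with rfl | rfl | rfl | rfl | rfl
      · exact R.sub_mem (hG _ _ _ _) (hG _ _ _ _)
      · exact R.sub_mem (hG _ _ _ _) (hG _ _ _ _)
      · exact R.sub_mem (hG _ _ _ _) (hG _ _ _ _)
      · exact R.sub_mem (hG _ _ _ _) (hG _ _ _ _)
      · exact R.sub_mem (hG _ _ _ _) (hG _ _ _ _)
  rw [WW]
  simp only [Module.End.mul_apply]
  exact key _ (by simp) 3 _ (key _ (by simp) 3 _ (key _ (by simp) 2 _ (key _ (by simp) 2 _
    (key _ (by simp) 2 _ hG))))

end fam

end Pool.Agent.V8H65.PW
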