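import Mathlib

/-!
# Locally nilpotent derivations and multiplicative families

Let `K` be a multiplicatively closed subspace of an algebra `B` in characteristic zero, with a list of
commuting locally nilpotent derivations whose common kernel has no zero divisors.  Then `K` has no zero
divisors, and an injective linear map `Φ : O → K` with `Φ g * Φ h = Φ (g h) * Φ 1`, where `O` is a
commutative domain spanned by units, can be replaced by one with values in the common kernel.
-/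

set_option autoImplicit false
set_option linter.unusedSectionVars false

namespace Pool.Agent.V8H65.PW

section step

variable {F : Type*} [Field F] [CharZero F] {B : Type*} [Ring B] [Algebra F B]

/-- `a` has degree `m` for `D`. -/
def Deg (D : B →ₗ[F] B) (a : B) (m : ℕ) : Prop := (D ^ m) a ≠ 0 ∧ (D ^ (m + 1)) a = 0

lemma pow_zero_of_le {D : B →ₗ[F] B} {a : B} {m n : ℕ} (h : (D ^ m) a = 0) (hmn : m ≤ n) :
    (D ^ n) a = 0 := by
  obtain ⟨k, rfl⟩ := Nat.exists_eq_add_of_le hmn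
  rw [add_comm, pow_add, Module.End.mul_apply, h, map_zero]

lemma Deg.unique {D : B →ₗ[F] B} {a : B} {m n : ℕ} (hm : Deg D a m) (hn : Deg D a n) : m = n := by
  rcases lt_trichotomy m n with h | h | h
  · exact absurd (pow_zero_of_le hm.2 h) hn.1
  · exact h
  · exact absurd (pow_zero_of_le hn.2 h) hm.1

lemma exists_deg {D : B →ₗ[F] B} {a : B} (ha : a ≠ 0) (h : ∃ n : ℕ, (D ^ n) a = 0) :
    ∃ m, Deg D a m := by
  classical
  have h0 : Nat.find h ≠ 0 := by
    intro h1
    have := Nat.find_spec h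
    rw [h1, pow_zero, Module.End.one_apply] at this
    exact ha this
  obtain ⟨m, hm⟩ := Nat.exists_eq_succ_of_ne_zero h0
  refine ⟨m, ?_, ?_⟩
  · exact Nat.find_min h (by omega)
  · have := Nat.find_spec h
    rwa [hm] at this

/-- Leibniz for the top powers. -/
lemma leib_top {D : B →ₗ[F] B} (hD : ∀ a b, D (a * b) = D a * b + a * D b) :
    ∀ (k m n : ℕ), m + n = k → ∀ a b : B, (D ^ (m + 1)) a = 0 → (D ^ (n + 1)) b = 0 →
      (D ^ k) (a * b) = ((Nat.choose k m : ℕ) : F) • ((D ^ m) a * (D ^ n) b) := by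
  intro k
  induction k with
  | zero =>
    intro m n hmn a b ha hb
    obtain ⟨rfl, rfl⟩ : m = 0 ∧ n = 0 := by omega
    simp
  | succ k ih =>
    intro m n hmn a b ha hb
    have ih0 : ∀ (a b : B), (D ^ (m + 1)) a = 0 → (D ^ (n + 1)) b = 0 →
        (D ^ (k + 1)) (a * b) = (D ^ k) (D a * b) + (D ^ k) (a * D b) := by
      intro a b _ _
      rw [pow_succ, Module.End.mul_apply, hD, map_add]
    rw [ih0 a b ha hb]
    have e1 : ∀ (j : ℕ) (x : B), (D ^ j) (D x) = (D ^ (j + 1)) x := by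
      intro j x
      rw [pow_succ, Module.End.mul_apply]
    rcases m with _ | m
    · have hn : n = k + 1 := by omega
      subst hn
      have hDa : D a = 0 := by simpa using ha
      rw [hDa, zero_mul, map_zero, zero_add, ih 0 k (by omega) a (D b) (by simpa using hDa)
        (by rw [e1]; exact hb)]
      simp [e1]
    · rcases n with _ | n
      · have hm : m = k := by omega
        subst hm
        have hDb : D b = 0 := by simpa using hb
        rw [hDb, mul_zero, map_zero, add_zero, ih m 0 (by omega) (D a) b (by rw [e1]; exact ha)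
          (by simpa using hDb)]
        simp [e1]
      · rw [ih m (n + 1) (by omega) (D a) b (by rw [e1]; exact ha) hb,
          ih (m + 1) n (by omega) a (D b) ha (by rw [e1]; exact hb), e1, e1, ← add_smul,
          Nat.choose_succ_succ, Nat.cast_add]

lemma leib_zero {D : B →ₗ[F] B} (hD : ∀ a b, D (a * b) = D a * b + a * D b) {m n : ℕ} {a b : B}
    (ha : (D ^ (m + 1)) a = 0) (hb : (D ^ (n + 1)) b = 0) : (D ^ (m + n + 1)) (a * b) = 0 := by
  rw [pow_succ', Module.End.mul_apply, leib_top hD (m + n) m n rfl a b ha hb, map_smul, hD]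
  have e1 : ∀ (j : ℕ) (x : B), D ((D ^ j) x) = (D ^ (j + 1)) x := by
    intro j x
    rw [pow_succ', Module.End.mul_apply]
  rw [e1, e1, ha, hb]
  simp

lemma Deg.mul {D : B →ₗ[F] B} (hD : ∀ a b, D (a * b) = D a * b + a * D b) {K : Submodule F B}
    (hst : ∀ a ∈ K, D a ∈ K)
    (hdom : ∀ a ∈ K, D a = 0 → ∀ b ∈ K, D b = 0 → a * b = 0 → a = 0 ∨ b = 0)
    {a b : B} (ha : a ∈ K) (hb : b ∈ K) {m n : ℕ} (h1 : Deg D a m) (h2 : Deg D b n) :
    Deg D (a * b) (m + n) := by
  have hpow : ∀ (j : ℕ) (x : B), x ∈ K → (D ^ j) x ∈ K := by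
    intro j x hx
    induction j with
    | zero => simpa using hx
    | succ j ih =>
      rw [pow_succ', Module.End.mul_apply]
      exact hst _ ih
  refine ⟨?_, leib_zero hD h1.2 h2.2⟩
  rw [leib_top hD (m + n) m n rfl a b h1.2 h2.2]
  intro h0
  rw [smul_eq_zero] at h0
  rcases h0 with h0 | h0
  · have : Nat.choose (m + n) m ≠ 0 := (Nat.choose_pos (by omega)).ne'
    exact this (by exact_mod_cast h0)
  · have e1 : ∀ (j : ℕ) (x : B), D ((D ^ j) x) = (D ^ (j + 1)) x := by
      intro j x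
      rw [pow_succ', Module.End.mul_apply]
    rcases hdom _ (hpow m a ha) (by rw [e1]; exact h1.2) _ (hpow n b hb) (by rw [e1]; exact h2.2) h0
      with h | h
    · exact h1.1 h
    · exact h2.1 h

/-- Data for one derivation. -/
theorem step {D : B →ₗ[F] B} (hD : ∀ a b, D (a * b) = D a * b + a * D b) {K : Submodule F B}
    (hst : ∀ a ∈ K, D a ∈ K) (hln : ∀ a ∈ K, ∃ n : ℕ, (D ^ n) a = 0)
    (hdom : ∀ a ∈ K, D a = 0 → ∀ b ∈ K, D b = 0 → a * b = 0 → a = 0 ∨ b = 0) :
    (∀ a ∈ K, ∀ b ∈ K, a * b = 0 → a = 0 ∨ b = 0) := by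
  intro a ha b hb hab
  by_contra hcon
  push Not at hcon
  obtain ⟨m, hm⟩ := exists_deg hcon.1 (hln a ha)
  obtain ⟨n, hn⟩ := exists_deg hcon.2 (hln b hb)
  have := (Deg.mul hD hst hdom ha hb hm hn).1
  rw [hab, map_zero] at this
  exact this rfl

theorem step_map {D : B →ₗ[F] B} (hD : ∀ a b, D (a * b) = D a * b + a * D b) {K : Submodule F B}
    (hmul : ∀ a ∈ K, ∀ b ∈ K, a * b ∈ K)
    (hst : ∀ a ∈ K, D a ∈ K) (hln : ∀ a ∈ K, ∃ n : ℕ, (D ^ n) a = 0)
    (hdom : ∀ a ∈ K, D a = 0 → ∀ b ∈ K, D b = 0 → a * b = 0 → a = 0 ∨ b = 0)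
    {O : Type*} [CommRing O] [IsDomain O] [Algebra F O]
    (hO : ∀ g : O, g ∈ AddSubmonoid.closure {u : O | IsUnit u})
    (Φ : O →ₗ[F] B) (hinj : Function.Injective Φ) (hK : ∀ g, Φ g ∈ K)
    (hrel : ∀ g h, Φ g * Φ h = Φ (g * h) * Φ 1) :
    ∃ Φ' : O →ₗ[F] B, Function.Injective Φ' ∧ (∀ g, Φ' g ∈ K ∧ D (Φ' g) = 0) ∧
      ∀ g h, Φ' g * Φ' h = Φ' (g * h) * Φ' 1 := by
  have hne : ∀ g : O, g ≠ 0 → Φ g ≠ 0 := fun g hg h => hg (hinj (by rw [h, map_zero]))
  have hdeg : ∀ g : O, g ≠ 0 → ∃ m, Deg D (Φ g) m := fun g hg => exists_deg (hne g hg) (hln _ (hK g))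
  obtain ⟨m, hm⟩ := hdeg 1 one_ne_zero
  -- additivity
  have hadd : ∀ g h : O, g ≠ 0 → h ≠ 0 → ∀ a b c : ℕ, Deg D (Φ g) a → Deg D (Φ h) b →
      Deg D (Φ (g * h)) c → a + b = c + m := by
    intro g h hg hh a b c ha hb hc
    have h1 := Deg.mul hD hst hdom (hK g) (hK h) ha hb
    have h2 := Deg.mul hD hst hdom (hK (g * h)) (hK 1) hc hm
    rw [hrel] at h1
    exact h1.unique h2
  -- lower bound from powers
  have hlow : ∀ g : O, g ≠ 0 → ∀ a : ℕ, Deg D (Φ g) a → m ≤ a := by
    intro g hg a ha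
    have hp : ∀ n : ℕ, ∀ c : ℕ, Deg D (Φ (g ^ n)) c → n * a + m = c + n * m := by
      intro n
      induction n with
      | zero =>
        intro c hc
        rw [pow_zero] at hc
        have := hm.unique hc
        omega
      | succ n ih =>
        intro c hc
        obtain ⟨d, hd⟩ := hdeg (g ^ n) (pow_ne_zero n hg)
        have h1 := ih d hd
        have h2 := hadd (g ^ n) g (pow_ne_zero n hg) hg d a c hd ha (by rwa [← pow_succ])
        rw [Nat.succ_mul, Nat.succ_mul]
        omega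
    by_contra hlt
    push Not at hlt
    obtain ⟨c, hc⟩ := hdeg (g ^ (m + 1)) (pow_ne_zero _ hg)
    have h1 := hp (m + 1) c hc
    have h2 : (m + 1) * a + (m + 1) ≤ (m + 1) * m := by
      have : a + 1 ≤ m := hlt
      calc (m + 1) * a + (m + 1) = (m + 1) * (a + 1) := by ring
        _ ≤ (m + 1) * m := Nat.mul_le_mul_left _ this
    omega
  have hunit : ∀ u : O, IsUnit u → (D ^ (m + 1)) (Φ u) = 0 := by
    intro u hu
    obtain ⟨v, huv⟩ := hu.exists_right_inv
    have hu0 : u ≠ 0 := hu.ne_zero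
    have hv0 : v ≠ 0 := by
      rintro rfl
      rw [mul_zero] at huv
      exact zero_ne_one huv
    obtain ⟨a, ha⟩ := hdeg u hu0
    obtain ⟨b, hb⟩ := hdeg v hv0
    have h1 := hadd u v hu0 hv0 a b m ha hb (by rwa [huv])
    have h2 := hlow u hu0 a ha
    have h3 := hlow v hv0 b hb
    have h4 : a = m := by omega
    rw [← h4]
    exact ha.2
  have hall : ∀ g : O, (D ^ (m + 1)) (Φ g) = 0 := by
    intro g
    induction hO g using AddSubmonoid.closure_induction with
    | mem u hu => exact hunit u hu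
    | zero => rw [map_zero, map_zero]
    | add x y _ _ hx hy => rw [map_add, map_add, hx, hy, add_zero]
  have hpow : ∀ (j : ℕ) (x : B), x ∈ K → (D ^ j) x ∈ K := by
    intro j x hx
    induction j with
    | zero => simpa using hx
    | succ j ih =>
      rw [pow_succ', Module.End.mul_apply]
      exact hst _ ih
  refine ⟨(D ^ m) ∘ₗ Φ, ?_, ?_, ?_⟩
  · rw [injective_iff_map_eq_zero]
    intro g hg
    by_contra hg0
    obtain ⟨a, ha⟩ := hdeg g hg0
    have h1 := hlow g hg0 a ha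
    exact ha.1 (pow_zero_of_le hg h1)
  · intro g
    refine ⟨hpow m _ (hK g), ?_⟩
    have := hall g
    rwa [pow_succ', Module.End.mul_apply] at this
  · intro g h
    have h1 := leib_top hD (m + m) m m rfl (Φ g) (Φ h) (hall g) (hall h)
    have h2 := leib_top hD (m + m) m m rfl (Φ (g * h)) (Φ 1) (hall _) (hall _)
    rw [hrel, h2] at h1
    have hc : ((Nat.choose (m + m) m : ℕ) : F) ≠ 0 := by
      have : Nat.choose (m + m) m ≠ 0 := (Nat.choose_pos (by omega)).ne'
      exact_mod_cast this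
    exact (smul_right_injective B hc h1).symm

end step

/-- The reduction along a list of commuting locally nilpotent derivations. -/
theorem reduce {F : Type*} [Field F] [CharZero F] {B : Type*} [Ring B] [Algebra F B]
    {O : Type*} [CommRing O] [IsDomain O] [Algebra F O]
    (hO : ∀ g : O, g ∈ AddSubmonoid.closure {u : O | IsUnit u}) :
    ∀ (l : List (B →ₗ[F] B)) (K : Submodule F B),
      (∀ a ∈ K, ∀ b ∈ K, a * b ∈ K) →
      (∀ D ∈ l, ∀ a b, D (a * b) = D a * b + a * D b) →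
      (∀ D ∈ l, ∀ a ∈ K, D a ∈ K) →
      (∀ D ∈ l, ∀ a ∈ K, ∃ n : ℕ, (D ^ n) a = 0) →
      (∀ D ∈ l, ∀ D' ∈ l, ∀ a, D (D' a) = D' (D a)) →
      (∀ a ∈ K, (∀ D ∈ l, D a = 0) → ∀ b ∈ K, (∀ D ∈ l, D b = 0) → a * b = 0 → a = 0 ∨ b = 0) →
      (∀ a ∈ K, ∀ b ∈ K, a * b = 0 → a = 0 ∨ b = 0) ∧
      ∀ Φ : O →ₗ[F] B, Function.Injective Φ → (∀ g, Φ g ∈ K) →
        (∀ g h, Φ g * Φ h = Φ (g * h) * Φ 1) →
        ∃ Φ' : O →ₗ[F] B, Function.Injective Φ' ∧ (∀ g, Φ' g ∈ K ∧ ∀ D ∈ l, D (Φ' g) = 0) ∧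
          ∀ g h, Φ' g * Φ' h = Φ' (g * h) * Φ' 1 := by
  intro l
  induction l with
  | nil =>
    intro K _ _ _ _ _ hdom
    refine ⟨fun a ha b hb hab => hdom a ha (by simp) b hb (by simp) hab, ?_⟩
    intro Φ h1 h2 h3
    exact ⟨Φ, h1, fun g => ⟨h2 g, by simp⟩, h3⟩
  | cons D l ih =>
    intro K hmul hder hst hln hcomm hdom
    have hD := hder D (by simp)
    -- the kernel of D in K
    let K' : Submodule F B := K ⊓ LinearMap.ker D
    have hK' : ∀ a, a ∈ K' ↔ a ∈ K ∧ D a = 0 := fun a => by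
      simp [K']
    obtain ⟨ih1, ih2⟩ := ih K'
      (by
        intro a ha b hb
        rw [hK'] at ha hb ⊢
        refine ⟨hmul a ha.1 b hb.1, ?_⟩
        rw [hD, ha.2, hb.2, zero_mul, mul_zero, add_zero])
      (fun D' hD' => hder D' (by simp [hD']))
      (by
        intro D' hD' a ha
        rw [hK'] at ha ⊢
        refine ⟨hst D' (by simp [hD']) a ha.1, ?_⟩
        rw [hcomm D (by simp) D' (by simp [hD']), ha.2, map_zero])
      (by
        intro D' hD' a ha
        rw [hK'] at ha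
        exact hln D' (by simp [hD']) a ha.1)
      (fun D' hD' D'' hD'' => hcomm D' (by simp [hD']) D'' (by simp [hD'']))
      (by
        intro a ha ha' b hb hb' hab
        rw [hK'] at ha hb
        refine hdom a ha.1 ?_ b hb.1 ?_ hab
        · intro D' hD'
          rcases List.mem_cons.1 hD' with rfl | h
          · exact ha.2
          · exact ha' D' h
        · intro D' hD'
          rcases List.mem_cons.1 hD' with rfl | h
          · exact hb.2
          · exact hb' D' h)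
    have hdomD : ∀ a ∈ K, D a = 0 → ∀ b ∈ K, D b = 0 → a * b = 0 → a = 0 ∨ b = 0 :=
      fun a ha ha' b hb hb' hab => ih1 a ((hK' a).2 ⟨ha, ha'⟩) b ((hK' b).2 ⟨hb, hb'⟩) hab
    refine ⟨step hD (hst D (by simp)) (hln D (by simp)) hdomD, ?_⟩
    intro Φ h1 h2 h3
    obtain ⟨Φ', h1', h2', h3'⟩ := step_map hD hmul (hst D (by simp)) (hln D (by simp)) hdomD hO Φ
      h1 h2 h3
    obtain ⟨Φ'', h1'', h2'', h3''⟩ := ih2 Φ' h1' (fun g => (hK' _).2 (h2' g)) h3'
    refine ⟨Φ'', h1'', ?_, h3''⟩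
    intro g
    have := (hK' _).1 (h2'' g).1
    refine ⟨this.1, ?_⟩
    intro D' hD'
    rcases List.mem_cons.1 hD' with rfl | h
    · exact this.2
    · exact (h2'' g).2 D' h

end Pool.Agent.V8H65.PW
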