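import Pool.Agent.V8H65.PW.Three

/-!
# The point modules of the Witt algebra

`V_I = F[x_i : i ∈ I]` with the twisted shifts `P_i^m f = λ_i^m f(x - m ε_i)` and the modes
`A_i(m) = P_i^m (x_i + β_i m)`.
-/

set_option autoImplicit false
set_option linter.unusedSectionVars false

namespace Pool.Agent.V8H65.PW

open MvPolynomial

section abstract

variable {F : Type*} [Field F] {E : Type*} [Ring E] [Algebra F E]

lemma mode_mul {P : ℤ → E} {θ : E} (PP : ∀ m n, P m * P n = P (m + n))
    (hθ : ∀ m : ℤ, θ * P m = P m * θ + (m : F) • P m) (β : F) (m n : ℤ) :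
    (P m * (θ + (β * m) • (1 : E))) * (P n * (θ + (β * n) • (1 : E))) =
      P (m + n) * (θ * θ) + ((n : F) + β * m + β * n) • (P (m + n) * θ) +
        (β * n * (n + β * m)) • P (m + n) := by
  have h1 : (θ + (β * m) • (1 : E)) * P n = P n * θ + ((n : F) + β * m) • P n := by
    rw [add_mul, hθ, smul_mul_assoc, one_mul]
    module
  rw [mul_assoc, ← mul_assoc (θ + (β * m) • (1 : E)), h1, add_mul, mul_add, mul_add,
    mul_add, mul_add, mul_add]
  simp only [smul_mul_assoc, mul_smul_comm, mul_one]
  rw [← mul_assoc (P m) (P n * θ) θ, ← mul_assoc (P m) (P n) θ, PP, mul_assoc (P (m + n)) θ θ]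
  module

lemma fam_of {P : ℤ → E} {θ : E} (P0 : P 0 = 1) (PP : ∀ m n, P m * P n = P (m + n))
    (hθ : ∀ m : ℤ, θ * P m = P m * θ + (m : F) • P m) (β : F) :
    Fam (2 * β * (1 - β)) P (fun m => P m * (θ + (β * m) • (1 : E))) := by
  refine ⟨P0, PP, ?_, ?_⟩
  · intro m n
    rw [mode_mul PP hθ, mode_mul PP hθ, mode_mul PP hθ]
    have e1 : m + 2 + n = m + n + 2 := by ring
    have e2 : m + 1 + (n + 1) = m + n + 2 := by ring
    have e3 : m + (n + 2) = m + n + 2 := by ring
    rw [e1, e2, e3]
    push_cast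
    module
  · intro m n
    simp only [← mul_assoc, PP]
    have e1 : m + 2 + n = m + n + 2 := by ring
    have e2 : m + 1 + (n + 1) = m + n + 2 := by ring
    have e3 : m + (n + 2) = m + n + 2 := by ring
    rw [e1, e2, e3, mul_add, mul_add, mul_add]
    simp only [mul_smul_comm, mul_one]
    push_cast
    module

lemma mode_comm {P : ℤ → E} {θ : E} (PP : ∀ m n, P m * P n = P (m + n))
    (hθ : ∀ m : ℤ, θ * P m = P m * θ + (m : F) • P m) (β : F) (m n : ℤ) :
    (P m * (θ + (β * m) • (1 : E))) * (P n * (θ + (β * n) • (1 : E))) -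
      (P n * (θ + (β * n) • (1 : E))) * (P m * (θ + (β * m) • (1 : E))) =
      ((n - m : ℤ) : F) • (P (m + n) * (θ + (β * (m + n : ℤ)) • (1 : E))) := by
  rw [mode_mul PP hθ, mode_mul PP hθ, add_comm n m, mul_add (P (m + n)) θ, mul_smul_comm, mul_one]
  push_cast
  module

end abstract

section model

variable {F : Type*} [Field F] {I : Type*} [DecidableEq I]

/-- The shift of the variables by an integer vector. -/
noncomputable def sh (v : I → ℤ) : MvPolynomial I F →ₐ[F] MvPolynomial I F :=
  aeval (fun j => X j - C ((v j : ℤ) : F))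

@[simp] lemma sh_X (v : I → ℤ) (j : I) : sh (F := F) v (X j) = X j - C ((v j : ℤ) : F) := by
  simp [sh]

@[simp] lemma sh_C (v : I → ℤ) (a : F) : sh (F := F) v (C a) = C a := by
  simp [sh]

lemma sh_comp (v w : I → ℤ) : (sh (F := F) v).comp (sh w) = sh (v + w) := by
  apply MvPolynomial.algHom_ext
  intro j
  simp only [AlgHom.comp_apply, sh_X, map_sub, sh_C, Pi.add_apply, Int.cast_add, C_add]
  ring

lemma sh_sh (v w : I → ℤ) (f : MvPolynomial I F) : sh v (sh w f) = sh (v + w) f := by
  rw [← sh_comp, AlgHom.comp_apply]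

lemma sh_zero (f : MvPolynomial I F) : sh (0 : I → ℤ) f = f := by
  have : (sh (0 : I → ℤ) : MvPolynomial I F →ₐ[F] MvPolynomial I F) = AlgHom.id F _ := by
    apply MvPolynomial.algHom_ext
    intro j
    simp
  rw [this, AlgHom.id_apply]

/-- The power `P_i^m`. -/
noncomputable def Pm (lam : I → F) (i : I) (m : ℤ) : Module.End F (MvPolynomial I F) :=
  (lam i ^ m) • (sh (Pi.single i m)).toLinearMap

/-- Multiplication by `x_i`. -/
noncomputable def th (i : I) : Module.End F (MvPolynomial I F) := LinearMap.mulLeft F (X i)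

/-- The mode `A_i(m)`. -/
noncomputable def Am (lam bet : I → F) (i : I) (m : ℤ) : Module.End F (MvPolynomial I F) :=
  Pm lam i m * (th i + (bet i * m) • (1 : Module.End F (MvPolynomial I F)))

lemma Pm_apply (lam : I → F) (i : I) (m : ℤ) (f : MvPolynomial I F) :
    Pm lam i m f = (lam i ^ m) • sh (Pi.single i m) f := rfl

lemma th_apply (i : I) (f : MvPolynomial I F) : th i f = X i * f := rfl

lemma Pm_zero (lam : I → F) (i : I) : Pm lam i 0 = 1 := by
  refine LinearMap.ext fun f => ?_
  rw [Pm_apply, Pi.single_zero, sh_zero, zpow_zero, one_smul, Module.End.one_apply]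

lemma Pm_mul {lam : I → F} (hl : ∀ i, lam i ≠ 0) (i : I) (m n : ℤ) :
    Pm lam i m * Pm lam i n = Pm lam i (m + n) := by
  refine LinearMap.ext fun f => ?_
  rw [Module.End.mul_apply, Pm_apply, Pm_apply, Pm_apply, map_smul, sh_sh, smul_smul,
    ← zpow_add₀ (hl i), Pi.single_add]

lemma Pm_comm (lam : I → F) (i j : I) (m n : ℤ) :
    Pm lam i m * Pm lam j n = Pm lam j n * Pm lam i m := by
  refine LinearMap.ext fun f => ?_
  rw [Module.End.mul_apply, Module.End.mul_apply, Pm_apply, Pm_apply, Pm_apply, Pm_apply,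
    map_smul, map_smul, sh_sh, sh_sh, smul_smul, smul_smul, mul_comm, add_comm]

lemma th_Pm (lam : I → F) (i : I) (m : ℤ) :
    th i * Pm lam i m = Pm lam i m * th i + (m : F) • Pm lam i m := by
  refine LinearMap.ext fun f => ?_
  simp only [Module.End.mul_apply, LinearMap.add_apply, LinearMap.smul_apply, Pm_apply, th_apply,
    map_mul, sh_X, Pi.single_eq_same, MvPolynomial.smul_eq_C_mul]
  ring

lemma th_Pm_ne (lam : I → F) {i j : I} (h : i ≠ j) (m : ℤ) :
    th i * Pm lam j m = Pm lam j m * th i := by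
  refine LinearMap.ext fun f => ?_
  simp only [Module.End.mul_apply, Pm_apply, th_apply,
    map_mul, sh_X, Pi.single_eq_of_ne h, MvPolynomial.smul_eq_C_mul]
  simp
  ring

lemma th_th (i j : I) : th (F := F) i * th j = th j * th i := by
  refine LinearMap.ext fun f => ?_
  simp only [Module.End.mul_apply, th_apply]
  ring

lemma fam_Am {lam : I → F} (hl : ∀ i, lam i ≠ 0) (bet : I → F) (i : I) :
    Fam (2 * bet i * (1 - bet i)) (Pm lam i) (Am lam bet i) :=
  fam_of (Pm_zero lam i) (Pm_mul hl i) (th_Pm lam i) (bet i)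

lemma two_Am (lam bet : I → F) {i j : I} (h : i ≠ j) :
    Two (Pm lam i) (Am lam bet i) (Pm lam j) (Am lam bet j) := by
  have hPP : ∀ m n, Commute (Pm lam i m) (Pm lam j n) := fun m n => Pm_comm lam i j m n
  have hti : ∀ m, Commute (th i) (Pm lam j m) := fun m => th_Pm_ne lam h m
  have htj : ∀ m, Commute (th j) (Pm lam i m) := fun m => th_Pm_ne lam (Ne.symm h) m
  have htt : Commute (th (F := F) i) (th j) := th_th i j
  have h1 : ∀ (c : F) (x : Module.End F (MvPolynomial I F)),
      Commute (c • (1 : Module.End F (MvPolynomial I F))) x := fun c x =>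
    (Commute.one_left x).smul_left c
  refine ⟨?_, ?_, ?_, ?_⟩
  · intro m n
    exact (Commute.mul_left (Commute.mul_right (hPP m n)
      (Commute.add_right (htj m).symm (h1 _ _).symm))
      (Commute.add_left (Commute.mul_right (hti n) (Commute.add_right htt (h1 _ _).symm))
        (h1 _ _))).eq
  · intro m n
    exact (Commute.mul_left (hPP m n) (Commute.add_left (hti n) (h1 _ _))).eq
  · intro m n
    exact (Commute.mul_right (hPP m n) (Commute.add_right (htj m).symm (h1 _ _).symm)).eq
  · intro m n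
    exact (hPP m n).eq

/-- The Witt relation for the sum of the modes. -/
lemma witt_rel [Fintype I] {lam : I → F} (hl : ∀ i, lam i ≠ 0) (bet : I → F) (m n : ℤ) :
    (∑ i, Am lam bet i m) * (∑ i, Am lam bet i n) - (∑ i, Am lam bet i n) * (∑ i, Am lam bet i m) =
      ((n - m : ℤ) : F) • ∑ i, Am lam bet i (m + n) := by
  have h1 : (∑ i, Am lam bet i m) * (∑ i, Am lam bet i n) -
      (∑ i, Am lam bet i n) * (∑ i, Am lam bet i m) =
      ∑ i, ∑ j, (Am lam bet i m * Am lam bet j n - Am lam bet j n * Am lam bet i m) := by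
    rw [Finset.sum_mul_sum, Finset.sum_mul_sum]
    rw [Finset.sum_comm (f := fun i j => Am lam bet i n * Am lam bet j m),
      ← Finset.sum_sub_distrib]
    refine Finset.sum_congr rfl fun i _ => ?_
    rw [← Finset.sum_sub_distrib]
  rw [h1, Finset.smul_sum]
  refine Finset.sum_congr rfl fun i _ => ?_
  rw [Finset.sum_eq_single i]
  · exact mode_comm (Pm_mul hl i) (th_Pm lam i) (bet i) m n
  · intro j _ hj
    rw [(two_Am lam bet (Ne.symm hj)).AB, sub_self]
  · intro h
    exact absurd (Finset.mem_univ i) h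

/-! ### Local nilpotency of the differences -/

/-- The difference operators. -/
noncomputable def dif (i : I) : Module.End F (MvPolynomial I F) :=
  (sh (Pi.single i 1)).toLinearMap - 1

lemma dif_apply (i : I) (f : MvPolynomial I F) : dif i f = sh (Pi.single i 1) f - f := rfl

lemma dif_mul (i : I) (f g : MvPolynomial I F) :
    dif i (f * g) = dif i f * g + f * dif i g + dif i f * dif i g := by
  simp only [dif_apply, map_mul]
  ring

/-- The filtration by order of nilpotency. -/
noncomputable def Fil : ℕ → Submodule F (MvPolynomial I F)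
  | 0 => ⊥
  | n + 1 => ⨅ i, (Fil n).comap (dif i)

lemma mem_Fil_succ (n : ℕ) (f : MvPolynomial I F) :
    f ∈ Fil (F := F) (I := I) (n + 1) ↔ ∀ i, dif i f ∈ Fil (F := F) (I := I) n := by
  simp [Fil, Submodule.mem_iInf]

lemma Fil_le_succ (n : ℕ) : Fil (F := F) (I := I) n ≤ Fil (n + 1) := by
  induction n with
  | zero => simp [Fil]
  | succ n ih =>
    intro f hf
    rw [mem_Fil_succ] at hf ⊢
    exact fun i => ih (hf i)

lemma Fil_mono {a b : ℕ} (h : a ≤ b) : Fil (F := F) (I := I) a ≤ Fil b := by
  induction h with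
  | refl => exact le_refl _
  | step _ ih => exact ih.trans (Fil_le_succ _)

lemma Fil_mul (k : ℕ) : ∀ (a b : ℕ), a + b = k → ∀ f g : MvPolynomial I F, f ∈ Fil (F := F) (a + 1) →
    g ∈ Fil (F := F) (I := I) (b + 1) → f * g ∈ Fil (F := F) (I := I) (a + b + 1) := by
  induction k with
  | zero =>
    intro a b hab f g hf hg
    obtain ⟨rfl, rfl⟩ : a = 0 ∧ b = 0 := by omega
    rw [mem_Fil_succ] at hf hg ⊢
    intro i
    have h1 : dif i f = 0 := by simpa [Fil] using hf i
    have h2 : dif i g = 0 := by simpa [Fil] using hg i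
    rw [dif_mul, h1, h2]
    simp
  | succ k ih =>
    intro a b hab f g hf hg
    have hf' := (mem_Fil_succ _ _).1 hf
    have hg' := (mem_Fil_succ _ _).1 hg
    rw [mem_Fil_succ]
    intro i
    rw [dif_mul]
    refine Submodule.add_mem _ (Submodule.add_mem _ ?_ ?_) ?_
    · rcases a with _ | a
      · have h1 : dif i f = 0 := by simpa [Fil] using hf' i
        rw [h1, zero_mul]
        exact Submodule.zero_mem _
      · have := ih a b (by omega) (dif i f) g (hf' i) hg
        rwa [show a + b + 1 = a + 1 + b by ring] at this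
    · rcases b with _ | b
      · have h1 : dif i g = 0 := by simpa [Fil] using hg' i
        rw [h1, mul_zero]
        exact Submodule.zero_mem _
      · exact ih a b (by omega) f (dif i g) hf (hg' i)
    · rcases a with _ | a
      · have h1 : dif i f = 0 := by simpa [Fil] using hf' i
        rw [h1, zero_mul]
        exact Submodule.zero_mem _
      · have := ih a b (by omega) (dif i f) (dif i g) (hf' i)
          (Fil_le_succ _ (hg' i))
        rwa [show a + b + 1 = a + 1 + b by ring] at this

lemma C_mem_Fil (a : F) : (C a : MvPolynomial I F) ∈ Fil (F := F) (I := I) 1 := by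
  rw [mem_Fil_succ]
  intro i
  rw [dif_apply, sh_C, sub_self]
  exact Submodule.zero_mem _

lemma X_mem_Fil (j : I) : (X j : MvPolynomial I F) ∈ Fil (F := F) (I := I) 2 := by
  rw [mem_Fil_succ]
  intro i
  rw [dif_apply, sh_X]
  have : (X j - C (((Pi.single i 1 : I → ℤ) j : ℤ) : F) - X j : MvPolynomial I F) =
      C (-(((Pi.single i 1 : I → ℤ) j : ℤ) : F)) := by
    rw [C_neg]
    ring
  rw [this]
  exact C_mem_Fil _

lemma exists_Fil (f : MvPolynomial I F) : ∃ n, f ∈ Fil (F := F) (I := I) n := by
  induction f using MvPolynomial.induction_on with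
  | C a => exact ⟨1, C_mem_Fil a⟩
  | add p q hp hq =>
    obtain ⟨a, ha⟩ := hp
    obtain ⟨b, hb⟩ := hq
    exact ⟨max a b, Submodule.add_mem _ (Fil_mono (le_max_left _ _) ha)
      (Fil_mono (le_max_right _ _) hb)⟩
  | mul_X p j hp =>
    obtain ⟨a, ha⟩ := hp
    exact ⟨a + 1 + 1, Fil_mul (a + 1) a 1 rfl p (X j) (Fil_le_succ _ ha) (X_mem_Fil j)⟩

/-- The operator `P_i - P_j` in terms of the differences. -/
lemma Pm_sub (lam : I → F) (i j : I) (f : MvPolynomial I F) :
    (Pm lam i 1 - Pm lam j 1) f = (lam i - lam j) • f +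
      (lam i • dif i f - lam j • dif j f) := by
  rw [LinearMap.sub_apply, Pm_apply, Pm_apply, dif_apply, dif_apply, zpow_one, zpow_one]
  module

lemma inj_Pm_sub {lam : I → F} {i j : I} (h : lam i ≠ lam j) (f : MvPolynomial I F)
    (hf : (Pm lam i 1 - Pm lam j 1) f = 0) : f = 0 := by
  obtain ⟨n, hn⟩ := exists_Fil f
  induction n with
  | zero => simpa [Fil] using hn
  | succ n ih =>
    apply ih
    rw [Pm_sub] at hf
    have h1 : (lam i - lam j) • f = -(lam i • dif i f - lam j • dif j f) :=
      eq_neg_of_add_eq_zero_left hf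
    have h2 : f = (lam i - lam j)⁻¹ • (-(lam i • dif i f - lam j • dif j f)) := by
      rw [← h1, smul_smul, inv_mul_cancel₀ (sub_ne_zero.2 h), one_smul]
    rw [h2]
    have hn' := (mem_Fil_succ _ _).1 hn
    exact Submodule.smul_mem _ _ (Submodule.neg_mem _ (Submodule.sub_mem _
      (Submodule.smul_mem _ _ (hn' i)) (Submodule.smul_mem _ _ (hn' j))))

end model

end Pool.Agent.V8H65.PW
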