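import Pool.Agent.V8H65.PW.Tilde

/-!
# No multiplicative family of rank two in the localised Weyl algebra
-/

set_option autoImplicit false
set_option linter.unusedSectionVars false

namespace Pool.Agent.V8H65.PW

section count

variable {F : Type*} [Field F] {k : ℕ}

/-- Laurent polynomials in `t_0` of degree at most `N` in absolute value. -/
noncomputable def Wsp (F : Type*) [Field F] (k N : ℕ) : Submodule F (Lau F (Fin (k + 1))) :=
  Submodule.span F ((fun n : ℤ => (AddMonoidAlgebra.single (Pi.single 0 n) 1 :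
    Lau F (Fin (k + 1)))) '' Set.Icc (-(N : ℤ)) N)

lemma Wsp_mono {a b : ℕ} (h : a ≤ b) : Wsp F k a ≤ Wsp F k b := by
  apply Submodule.span_mono
  apply Set.image_mono
  apply Set.Icc_subset_Icc
  · have : (a : ℤ) ≤ b := by exact_mod_cast h
    omega
  · exact_mod_cast h

lemma Wsp_mul {a b : ℕ} {x y : Lau F (Fin (k + 1))} (hx : x ∈ Wsp F k a) (hy : y ∈ Wsp F k b) :
    x * y ∈ Wsp F k (a + b) := by
  have h1 : x * y ∈ Wsp F k a * Wsp F k b := Submodule.mul_mem_mul hx hy
  rw [Wsp, Wsp, Submodule.span_mul_span] at h1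
  refine Submodule.span_mono ?_ h1
  rintro _ ⟨_, ⟨m, hm, rfl⟩, _, ⟨n, hn, rfl⟩, rfl⟩
  refine ⟨m + n, ⟨?_, ?_⟩, ?_⟩
  · have := hm.1
    have := hn.1
    push_cast
    omega
  · have := hm.2
    have := hn.2
    push_cast
    omega
  · simp only [AddMonoidAlgebra.single_mul_single, one_mul, Pi.single_add]

lemma Wsp_one : (1 : Lau F (Fin (k + 1))) ∈ Wsp F k 0 := by
  apply Submodule.subset_span
  refine ⟨0, by simp, ?_⟩
  simp only [Pi.single_zero]
  rfl

lemma Wsp_pow {a : ℕ} {x : Lau F (Fin (k + 1))} (hx : x ∈ Wsp F k a) (n : ℕ) :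
    x ^ n ∈ Wsp F k (n * a) := by
  induction n with
  | zero =>
    rw [pow_zero, zero_mul]
    exact Wsp_one
  | succ n ih =>
    rw [pow_succ, Nat.succ_mul]
    exact Wsp_mul ih hx

lemma exists_Wsp {x : Lau F (Fin (k + 1))}
    (h : ∀ v, x.coeff v ≠ 0 → ∀ i, i ≠ 0 → v i = 0) : ∃ N, x ∈ Wsp F k N := by
  refine ⟨x.coeff.support.sup (fun v => (v 0).natAbs), ?_⟩
  have h1 : ∑ v ∈ x.coeff.support, AddMonoidAlgebra.single v (x.coeff v) = x :=
    AddMonoidAlgebra.sum_coeff_single x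
  have h0 : ∑ v ∈ x.coeff.support, (AddMonoidAlgebra.single v (x.coeff v) : Lau F (Fin (k + 1))) ∈
      Wsp F k (x.coeff.support.sup (fun v => (v 0).natAbs)) := by
    refine Submodule.sum_mem _ fun v hv => ?_
    have h2 : (AddMonoidAlgebra.single v (x.coeff v) : Lau F (Fin (k + 1))) =
        x.coeff v • AddMonoidAlgebra.single v 1 := by
      rw [AddMonoidAlgebra.smul_single, smul_eq_mul, mul_one]
    rw [h2]
    refine Submodule.smul_mem _ _ (Submodule.subset_span ⟨v 0, ?_, ?_⟩)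
    · have h3 : (v 0).natAbs ≤ x.coeff.support.sup (fun v => (v 0).natAbs) :=
        Finset.le_sup (f := fun v : Fin (k + 1) → ℤ => (v 0).natAbs) hv
      constructor
      · omega
      · omega
    · simp only
      congr 1
      funext i
      by_cases hi : i = 0
      · subst hi
        simp
      · rw [Pi.single_eq_of_ne hi, h v (Finsupp.mem_support_iff.1 hv) i hi]
  exact (congrArg (· ∈ Wsp F k (x.coeff.support.sup (fun v => (v 0).natAbs))) h1).mp h0

/-- Two algebraically independent quotients do not fit in one variable. -/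
theorem no_count (Ψ : AddMonoidAlgebra F (ℤ × ℤ) →ₗ[F] Lau F (Fin (k + 1)))
    (hinj : Function.Injective Ψ) (hrel : ∀ g h, Ψ g * Ψ h = Ψ (g * h) * Ψ 1)
    (hsupp : ∀ g v, (Ψ g).coeff v ≠ 0 → ∀ i, i ≠ 0 → v i = 0) : False := by
  classical
  obtain ⟨M1, hM1⟩ := exists_Wsp (hsupp 1)
  obtain ⟨M2, hM2⟩ := exists_Wsp (hsupp (AddMonoidAlgebra.single (1, 0) 1))
  obtain ⟨M3, hM3⟩ := exists_Wsp (hsupp (AddMonoidAlgebra.single (0, 1) 1))
  set M := M1 + M2 + M3 with hM
  have m1 := Wsp_mono (show M1 ≤ M by omega) hM1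
  have m2 := Wsp_mono (show M2 ≤ M by omega) hM2
  have m3 := Wsp_mono (show M3 ≤ M by omega) hM3
  set c := Ψ 1 with hc
  set a := Ψ (AddMonoidAlgebra.single (1, 0) 1) with ha
  set b := Ψ (AddMonoidAlgebra.single (0, 1) 1) with hb
  have hc0 : c ≠ 0 := by
    intro h
    exact one_ne_zero (hinj (by rw [← hc, h, map_zero]))
  have hpow : ∀ i j : ℕ, Ψ (AddMonoidAlgebra.single ((i : ℤ), (j : ℤ)) 1) * c ^ (i + j) =
      a ^ i * b ^ j * c := by
    intro i j
    induction i with
    | zero =>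
      induction j with
      | zero =>
        have : (AddMonoidAlgebra.single (((0 : ℕ) : ℤ), ((0 : ℕ) : ℤ)) 1 :
          AddMonoidAlgebra F (ℤ × ℤ)) = 1 := rfl
        rw [this, ← hc]
        ring
      | succ j ih =>
        have h1 : (AddMonoidAlgebra.single (((0 : ℕ) : ℤ), ((j + 1 : ℕ) : ℤ)) 1 :
            AddMonoidAlgebra F (ℤ × ℤ)) = AddMonoidAlgebra.single (((0 : ℕ) : ℤ), (j : ℤ)) 1 *
              AddMonoidAlgebra.single (0, 1) 1 := by
          rw [AddMonoidAlgebra.single_mul_single, one_mul]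
          congr 1
        have h2 := hrel (AddMonoidAlgebra.single (((0 : ℕ) : ℤ), (j : ℤ)) 1)
          (AddMonoidAlgebra.single (0, 1) 1)
        rw [← h1, ← hb] at h2
        calc _ = Ψ (AddMonoidAlgebra.single (((0 : ℕ) : ℤ), ((j + 1 : ℕ) : ℤ)) 1) * c *
              c ^ (0 + j) := by ring
          _ = (Ψ (AddMonoidAlgebra.single (((0 : ℕ) : ℤ), (j : ℤ)) 1) * c ^ (0 + j)) * b := by
              rw [← h2]; ring
          _ = _ := by rw [ih]; ring
    | succ i ih =>
      have h1 : (AddMonoidAlgebra.single (((i + 1 : ℕ) : ℤ), (j : ℤ)) 1 :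
          AddMonoidAlgebra F (ℤ × ℤ)) = AddMonoidAlgebra.single ((i : ℤ), (j : ℤ)) 1 *
            AddMonoidAlgebra.single (1, 0) 1 := by
        rw [AddMonoidAlgebra.single_mul_single, one_mul]
        simp
      have h2 := hrel (AddMonoidAlgebra.single ((i : ℤ), (j : ℤ)) 1)
        (AddMonoidAlgebra.single (1, 0) 1)
      rw [← h1, ← ha] at h2
      calc _ = Ψ (AddMonoidAlgebra.single (((i + 1 : ℕ) : ℤ), (j : ℤ)) 1) * c *
            c ^ (i + j) := by ring
        _ = (Ψ (AddMonoidAlgebra.single ((i : ℤ), (j : ℤ)) 1) * c ^ (i + j)) * a := by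
            rw [← h2]; ring
        _ = _ := by rw [ih]; ring
  set N := 4 * M + 4 with hN
  have hmem : ∀ i j : ℕ, i ≤ N → j ≤ N →
      Ψ (AddMonoidAlgebra.single ((i : ℤ), (j : ℤ)) 1) * c ^ (2 * N) ∈
        Wsp F k ((2 * N + 1) * M) := by
    intro i j hi hj
    have h1 : Ψ (AddMonoidAlgebra.single ((i : ℤ), (j : ℤ)) 1) * c ^ (2 * N) =
        a ^ i * b ^ j * c * c ^ (2 * N - i - j) := by
      rw [← hpow, mul_assoc, ← pow_add]
      congr 2
      omega
    rw [h1]
    have h2 := Wsp_mul (Wsp_mul (Wsp_mul (Wsp_pow m2 i) (Wsp_pow m3 j)) m1)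
      (Wsp_pow m1 (2 * N - i - j))
    have h3 : i * M + j * M + M + (2 * N - i - j) * M = (2 * N + 1) * M := by
      have : i + j + 1 + (2 * N - i - j) = 2 * N + 1 := by omega
      rw [← this]
      ring
    rwa [h3] at h2
  have hli : LinearIndependent F (fun p : Fin (N + 1) × Fin (N + 1) =>
      Ψ (AddMonoidAlgebra.single (((p.1 : ℕ) : ℤ), ((p.2 : ℕ) : ℤ)) 1) * c ^ (2 * N)) := by
    have h0 : LinearIndependent F (fun v : ℤ × ℤ =>
        (AddMonoidAlgebra.single v 1 : AddMonoidAlgebra F (ℤ × ℤ))) := by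
      apply LinearIndependent.of_comp (AddMonoidAlgebra.coeffLinearEquiv F).toLinearMap
      exact Finsupp.linearIndependent_single_one F (ℤ × ℤ)
    let T : AddMonoidAlgebra F (ℤ × ℤ) →ₗ[F] Lau F (Fin (k + 1)) :=
      (LinearMap.mulRight F (c ^ (2 * N))) ∘ₗ Ψ
    have hT : LinearMap.ker T = ⊥ := by
      rw [LinearMap.ker_eq_bot]
      intro x y hxy
      apply hinj
      have h1 : Ψ x * c ^ (2 * N) = Ψ y * c ^ (2 * N) := hxy
      exact mul_right_cancel₀ (pow_ne_zero _ hc0) h1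
    have h2 := h0.map' T hT
    exact h2.comp (fun p : Fin (N + 1) × Fin (N + 1) => (((p.1 : ℕ) : ℤ), ((p.2 : ℕ) : ℤ))) (by
      rintro ⟨p1, p2⟩ ⟨q1, q2⟩ hpq
      simp only [Prod.mk.injEq, Nat.cast_inj] at hpq
      exact Prod.ext (Fin.ext hpq.1) (Fin.ext hpq.2))
  have hcard := linearIndependent_le_span' _ hli
    ((Finset.Icc (-(((2 * N + 1) * M : ℕ) : ℤ)) ((2 * N + 1) * M : ℕ)).image
      (fun n : ℤ => (AddMonoidAlgebra.single (Pi.single 0 n) 1 : Lau F (Fin (k + 1)))) :
        Finset (Lau F (Fin (k + 1))))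
    (by
      rintro _ ⟨p, rfl⟩
      have := hmem p.1 p.2 (by omega) (by omega)
      rw [Wsp] at this
      simpa using this)
  have h5 : Fintype.card (Fin (N + 1) × Fin (N + 1)) ≤
      (Finset.Icc (-(((2 * N + 1) * M : ℕ) : ℤ)) ((2 * N + 1) * M : ℕ)).card := by
    rw [Cardinal.mk_fintype] at hcard
    have h6 : Fintype.card (Fin (N + 1) × Fin (N + 1)) ≤ Fintype.card
      ((Finset.Icc (-(((2 * N + 1) * M : ℕ) : ℤ)) ((2 * N + 1) * M : ℕ)).image
      (fun n : ℤ => (AddMonoidAlgebra.single (Pi.single 0 n) 1 : Lau F (Fin (k + 1)))) :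
        Finset (Lau F (Fin (k + 1)))) := by exact_mod_cast hcard
    rw [Fintype.card_coe] at h6
    exact h6.trans Finset.card_image_le
  rw [Fintype.card_prod, Fintype.card_fin, Int.card_Icc] at h5
  have h7 : ((((2 * N + 1) * M : ℕ) : ℤ) + 1 - -(((2 * N + 1) * M : ℕ) : ℤ)).toNat =
      2 * ((2 * N + 1) * M) + 1 := by
    omega
  rw [h7, hN] at h5
  nlinarith

end count

section main

variable {F : Type*} [Field F] [CharZero F] {k : ℕ}

lemma units_span (g : AddMonoidAlgebra F (ℤ × ℤ)) :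
    g ∈ AddSubmonoid.closure {u : AddMonoidAlgebra F (ℤ × ℤ) | IsUnit u} := by
  induction g using AddMonoidAlgebra.induction_linear with
  | zero => exact AddSubmonoid.zero_mem _
  | add f g hf hg => exact AddSubmonoid.add_mem _ hf hg
  | single v c =>
    by_cases hc : c = 0
    · rw [hc, AddMonoidAlgebra.single_zero]
      exact AddSubmonoid.zero_mem _
    · apply AddSubmonoid.subset_closure
      refine IsUnit.of_mul_eq_one (AddMonoidAlgebra.single (-v) c⁻¹) ?_
      rw [AddMonoidAlgebra.single_mul_single, add_neg_cancel, mul_inv_cancel₀ hc]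
      rfl

/-- There is no multiplicative family of rank two in the localised Weyl algebra. -/
theorem no_family (Φ : AddMonoidAlgebra F (ℤ × ℤ) →ₗ[F] Module.End F (Lau F (Fin (k + 1))))
    (hinj : Function.Injective Φ) (hmem : ∀ g, Φ g ∈ LocWeyl F k)
    (hrel : ∀ g h, Φ g * Φ h = Φ (g * h) * Φ 1) : False := by
  have hred := reduce (F := F) (B := Module.End F (Lau F (Fin (k + 1))))
    (O := AddMonoidAlgebra F (ℤ × ℤ)) units_span ((dl F k).map (fun x => adj (F := F) x))
    (Subalgebra.toSubmodule (LocWeyl F k))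
    (fun a ha b hb => (LocWeyl F k).mul_mem ha hb)
    (by
      intro D hD a b
      obtain ⟨x, -, rfl⟩ := List.mem_map.1 hD
      exact adj_leib x a b)
    (by
      intro D hD a ha
      obtain ⟨x, hx, rfl⟩ := List.mem_map.1 hD
      exact (LocWeyl F k).sub_mem ((LocWeyl F k).mul_mem (dl_mem hx) ha)
        ((LocWeyl F k).mul_mem ha (dl_mem hx)))
    (by
      intro D hD a ha
      obtain ⟨x, hx, rfl⟩ := List.mem_map.1 hD
      exact dl_nil hx a ha)
    (by
      intro D hD D' hD' a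
      obtain ⟨x, hx, rfl⟩ := List.mem_map.1 hD
      obtain ⟨y, hy, rfl⟩ := List.mem_map.1 hD'
      exact dl_comm hx hy a)
    (by
      intro a _ ha b _ hb hab
      have ha' : ∀ i : Fin (k + 1), mulT i 1 * a = a * mulT i 1 := fun i => by
        have := ha _ (List.mem_map.2 ⟨_, (mem_dl _).2 (Or.inl ⟨i, rfl⟩), rfl⟩)
        rwa [adj_apply, sub_eq_zero] at this
      have hb' : ∀ i : Fin (k + 1), mulT i 1 * b = b * mulT i 1 := fun i => by
        have := hb _ (List.mem_map.2 ⟨_, (mem_dl _).2 (Or.inl ⟨i, rfl⟩), rfl⟩)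
        rwa [adj_apply, sub_eq_zero] at this
      have h1 := LinearMap.congr_fun hab 1
      rw [Module.End.mul_apply, eq_mul ha', LinearMap.zero_apply] at h1
      rcases mul_eq_zero.1 h1 with h2 | h2
      · right
        refine LinearMap.ext fun f => ?_
        rw [eq_mul hb', h2, mul_zero, LinearMap.zero_apply]
      · left
        refine LinearMap.ext fun f => ?_
        rw [eq_mul ha', h2, mul_zero, LinearMap.zero_apply])
  obtain ⟨Φ', h1, h2, h3⟩ := hred.2 Φ hinj hmem hrel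
  have h4 : ∀ g, ∀ D ∈ dl F k, adj (F := F) D (Φ' g) = 0 := fun g D hD =>
    (h2 g).2 _ (List.mem_map.2 ⟨D, hD, rfl⟩)
  have h5 : ∀ g, ∀ i : Fin (k + 1), mulT i 1 * Φ' g = Φ' g * mulT i 1 := fun g i => by
    have := h4 g _ ((mem_dl _).2 (Or.inl ⟨i, rfl⟩))
    rwa [adj_apply, sub_eq_zero] at this
  let Ψ : AddMonoidAlgebra F (ℤ × ℤ) →ₗ[F] Lau F (Fin (k + 1)) :=
    (LinearMap.applyₗ (1 : Lau F (Fin (k + 1)))) ∘ₗ Φ'
  have hΨ : ∀ g, Ψ g = Φ' g 1 := fun g => rfl
  apply no_count Ψ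
  · rw [injective_iff_map_eq_zero]
    intro g hg
    apply h1
    rw [map_zero]
    refine LinearMap.ext fun f => ?_
    rw [eq_mul (h5 g), ← hΨ, hg, mul_zero, LinearMap.zero_apply]
  · intro g h
    have h6 := LinearMap.congr_fun (h3 g h) 1
    rw [Module.End.mul_apply, Module.End.mul_apply, eq_mul (h5 g), eq_mul (h5 (g * h))] at h6
    rw [hΨ, hΨ, hΨ, hΨ, mul_comm, h6, mul_comm]
  · intro g v hv i hi
    exact supp_one (h4 g) v hv i hi

end main

end Pool.Agent.V8H65.PW
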