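import Pool.Agent.V8H65.PW.Diff

/-!
# The three-point test

An iterated difference of `e_l e_m e_n` vanishes for at most two points and not for three points.
-/

set_option autoImplicit false
set_option linter.unusedSectionVars false

namespace Pool.Agent.V8H65.PW

variable {F : Type*} [Field F] {E : Type*} [Ring E] [Algebra F E]

/-- The operator for three points. -/
def VV (F : Type*) [Field F] {E : Type*} [Ring E] [Algebra F E] : Module.End F (Q4 E) :=
  X12 F ^ 4 * X13 F ^ 4 * X23 F ^ 4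

lemma VV_12 : (VV F : Module.End F (Q4 E)) = (X13 F ^ 4 * X23 F ^ 4 * X12 F) * X12 F ^ 3 := by
  have h : Commute (X12 F ^ 4 : Module.End F (Q4 E)) (X13 F ^ 4 * X23 F ^ 4) :=
    ((x12_13 F).pow_pow 4 4).mul_right ((x12_23 F).pow_pow 4 4)
  rw [VV, mul_assoc, h.eq, mul_assoc, mul_assoc (X13 F ^ 4 * X23 F ^ 4), ← pow_succ',
    ← mul_assoc]

lemma VV_13 : (VV F : Module.End F (Q4 E)) = (X12 F ^ 4 * X23 F ^ 4 * X13 F) * X13 F ^ 3 := by
  have h : Commute (X13 F ^ 4 : Module.End F (Q4 E)) (X23 F ^ 4) :=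
    ((x13_23 F).pow_pow 4 4)
  rw [VV, mul_assoc, h.eq, mul_assoc (X12 F ^ 4 * X23 F ^ 4), ← pow_succ',
    ← mul_assoc]

lemma VV_23 : (VV F : Module.End F (Q4 E)) = (X12 F ^ 4 * X13 F ^ 4 * X23 F) * X23 F ^ 3 := by
  rw [VV, mul_assoc (X12 F ^ 4 * X13 F ^ 4), ← pow_succ']

lemma kill23 {c : F} {Q B : ℤ → E} (h : Fam c Q B) (A : ℤ → E) :
    (X23 F ^ 3) (fun l m n _ => A l * B m * B n) = 0 := by
  funext l m n r
  have h1 := h.AAA m n
  simp only [X23, pow_succ, pow_zero, one_mul, Module.End.mul_apply, LinearMap.sub_apply,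
    Pi.sub_apply, U2_apply, U3_apply, add_assoc, Int.reduceAdd, Pi.zero_apply] at h1 ⊢
  rw [← mul_zero (A l), ← h1]
  noncomm_ring

variable {I : Type*} [DecidableEq I]

lemma VV_zero {c : I → F} {P A : I → ℤ → E} (hf : ∀ i, Fam (c i) (P i) (A i))
    (h2 : ∀ i j, i ≠ j → Two (P i) (A i) (P j) (A j)) (i j k : I)
    (h : ¬ (i ≠ j ∧ i ≠ k ∧ j ≠ k)) :
    (VV F : Module.End F (Q4 E)) (fun l m n _ => A i l * A j m * A k n) = 0 := by
  by_cases hij : i = j
  · subst hij
    rw [VV_12, Module.End.mul_apply, kill12 (hf i) (fun n _ => A k n), LinearMap.map_zero]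
  · by_cases hik : i = k
    · subst hik
      have := kill13 (hf i) (h2 i j hij) (fun _ => 1)
      simp only [mul_one] at this
      rw [VV_13, Module.End.mul_apply, this, LinearMap.map_zero]
    · have hjk : j = k := by
        by_contra hjk
        exact h ⟨hij, hik, hjk⟩
      subst hjk
      rw [VV_23, Module.End.mul_apply, kill23 (hf j) (A i), LinearMap.map_zero]

lemma Lm_mul (a b : E) (G : Q4 E) : Lm F a (Lm F b G) = Lm F (a * b) G := by
  funext l m n r
  simp [mul_assoc]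

lemma VV_gen {G : Q4 E} {a b c : E} (h1 : U1 F G = Lm F a G) (h2 : U2 F G = Lm F b G)
    (h3 : U3 F G = Lm F c G) :
    (VV F) G = Lm F ((b - c) ^ 4 * ((a - c) ^ 4 * (a - b) ^ 4)) G := by
  have hL : ∀ a b : E, Lm F (a - b) G = Lm F a G - Lm F b G := by
    intro a b
    funext l m n r
    simp [sub_mul]
  have x12 : X12 F G = Lm F (a - b) G := by
    rw [X12, LinearMap.sub_apply, h1, h2, hL]
  have x13 : X13 F G = Lm F (a - c) G := by
    rw [X13, LinearMap.sub_apply, h1, h3, hL]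
  have x23 : X23 F G = Lm F (b - c) G := by
    rw [X23, LinearMap.sub_apply, h2, h3, hL]
  have p12 : (X12 F ^ 4) G = Lm F ((a - b) ^ 4) G :=
    pow_Lm (Commute.sub_right (cL1 F (a - b)) (cL2 F (a - b))) x12 4
  have p13 : (X13 F ^ 4) G = Lm F ((a - c) ^ 4) G :=
    pow_Lm (Commute.sub_right (cL1 F (a - c)) (cL3 F (a - c))) x13 4
  have p23 : (X23 F ^ 4) G = Lm F ((b - c) ^ 4) G :=
    pow_Lm (Commute.sub_right (cL2 F (b - c)) (cL3 F (b - c))) x23 4
  have hc3 : ∀ (a : E) (k : ℕ), (X13 F ^ k) (Lm F a G) = Lm F a ((X13 F ^ k) G) := fun a k =>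
    (LinearMap.congr_fun ((Commute.sub_right (cL1 F a) (cL3 F a)).pow_right k).eq G).symm
  have hc2 : ∀ (a : E) (k : ℕ) (G : Q4 E), (X12 F ^ k) (Lm F a G) = Lm F a ((X12 F ^ k) G) :=
    fun a k G =>
    (LinearMap.congr_fun ((Commute.sub_right (cL1 F a) (cL2 F a)).pow_right k).eq G).symm
  have e : (VV F) G = (X12 F ^ 4) ((X13 F ^ 4) ((X23 F ^ 4) G)) := rfl
  rw [e, p23, hc3, p13, Lm_mul, hc2, p12, Lm_mul]
  congr 2
  exact mul_assoc _ _ _

lemma VV_dist {c : I → F} {P A : I → ℤ → E} (hf : ∀ i, Fam (c i) (P i) (A i))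
    (h2 : ∀ i j, i ≠ j → Two (P i) (A i) (P j) (A j))
    (h0 : ∀ i l, A i (l + 1) = P i 1 * A i l) (i j k : I)
    (hij : i ≠ j) (hik : i ≠ k) (hjk : j ≠ k) :
    (VV F : Module.End F (Q4 E)) (fun l m n _ => A i l * A j m * A k n) =
      Lm F ((P j 1 - P k 1) ^ 4 * ((P i 1 - P k 1) ^ 4 * (P i 1 - P j 1) ^ 4))
        (fun l m n _ => A i l * A j m * A k n) := by
  apply VV_gen
  · funext l m n r
    simp only [U1_apply, Lm_apply, h0, mul_assoc]
  · funext l m n r
    simp only [U2_apply, Lm_apply, h0]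
    rw [← mul_assoc (A i l), (h2 i j hij).AQ, ← mul_assoc, ← mul_assoc]
  · funext l m n r
    simp only [U3_apply, Lm_apply, h0]
    rw [← mul_assoc, mul_assoc (A i l), (h2 j k hjk).AQ, ← mul_assoc (A i l), (h2 i k hik).AQ,
      ← mul_assoc, ← mul_assoc]

/-- The value for three points. -/
theorem three_point {c : Fin 3 → F} {P A : Fin 3 → ℤ → E} (hf : ∀ i, Fam (c i) (P i) (A i))
    (h2 : ∀ i j, i ≠ j → Two (P i) (A i) (P j) (A j))
    (h0 : ∀ i l, A i (l + 1) = P i 1 * A i l) :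
    (VV F : Module.End F (Q4 E))
      (fun l m n _ => (∑ i, A i l) * (∑ i, A i m) * (∑ i, A i n)) 0 0 0 0 =
      6 • (((P 1 1 - P 2 1) ^ 4 * ((P 0 1 - P 2 1) ^ 4 * (P 0 1 - P 1 1) ^ 4)) *
        (A 0 0 * A 1 0 * A 2 0)) := by
  set Z := ((P 1 1 - P 2 1) ^ 4 * ((P 0 1 - P 2 1) ^ 4 * (P 0 1 - P 1 1) ^ 4)) *
        (A 0 0 * A 1 0 * A 2 0) with hZ
  have hs : (fun l m n _ => (∑ i, A i l) * (∑ i, A i m) * (∑ i, A i n) : Q4 E) =
      ∑ i : Fin 3, ∑ j : Fin 3, ∑ k : Fin 3, (fun l m n _ => A i l * A j m * A k n : Q4 E) := by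
    funext l m n r
    simp only [Finset.sum_apply, Finset.sum_mul, Finset.mul_sum]
    simp only [Fin.sum_univ_three]
    abel
  have hx : ∀ i j, (P i 1 - P j 1) ^ 4 = (P j 1 - P i 1) ^ 4 := by
    intro i j
    rw [← neg_sub, Even.neg_pow (by decide)]
  have hPP : ∀ i j, Commute (P i 1) (P j 1) := by
    intro i j
    by_cases h : i = j
    · subst h; exact Commute.refl _
    · exact (h2 i j h).PQ 1 1
  have hxc : ∀ i j k l, Commute ((P i 1 - P j 1) ^ 4) ((P k 1 - P l 1) ^ 4) := by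
    intro i j k l
    exact (Commute.sub_left (Commute.sub_right (hPP _ _) (hPP _ _))
      (Commute.sub_right (hPP _ _) (hPP _ _))).pow_pow 4 4
  have hA : ∀ i j, i ≠ j → Commute (A i 0) (A j 0) := fun i j h => (h2 i j h).AB 0 0
  obtain ⟨f, hf0⟩ : ∃ f : Fin 3 → Fin 3 → Fin 3 → E, ∀ i j k, f i j k =
      ((P j 1 - P k 1) ^ 4 * ((P i 1 - P k 1) ^ 4 * (P i 1 - P j 1) ^ 4)) *
        (A i 0 * A j 0 * A k 0) := ⟨_, fun _ _ _ => rfl⟩
  have key : ∀ i j k, (VV F : Module.End F (Q4 E)) (fun l m n _ => A i l * A j m * A k n) 0 0 0 0 =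
      if (i ≠ j ∧ i ≠ k ∧ j ≠ k) then Z else 0 := by
    intro i j k
    split_ifs with h
    · obtain ⟨hij, hik, hjk⟩ := h
      rw [VV_dist hf h2 h0 i j k hij hik hjk, Lm_apply, hZ]
      have s12 : ∀ i j k, i ≠ j → f i j k = f j i k := by
        intro i j k hij
        simp only [hf0]
        rw [(hA i j hij).eq, hx i j, ← mul_assoc ((P j 1 - P k 1) ^ 4), (hxc j k i k).eq,
          mul_assoc ((P i 1 - P k 1) ^ 4)]
      have s23 : ∀ i j k, j ≠ k → f i j k = f i k j := by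
        intro i j k hjk
        simp only [hf0]
        rw [mul_assoc (A i 0), (hA j k hjk).eq, ← mul_assoc (A i 0), hx j k, (hxc i k i j).eq]
      rw [← hf0, ← hf0]
      fin_cases i <;> fin_cases j <;> fin_cases k
      all_goals first
        | exact absurd rfl hij
        | exact absurd rfl hik
        | exact absurd rfl hjk
        | skip
      · rfl
      · exact s23 0 2 1 (by decide)
      · exact s12 1 0 2 (by decide)
      · exact (s23 1 2 0 (by decide)).trans (s12 1 0 2 (by decide))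
      · exact (s12 2 0 1 (by decide)).trans (s23 0 2 1 (by decide))
      · exact ((s12 2 1 0 (by decide)).trans (s23 1 2 0 (by decide))).trans (s12 1 0 2 (by decide))
    · rw [VV_zero hf h2 i j k h]
      rfl
  let ev : Q4 E →+ E := AddMonoidHom.mk' (fun G => (VV F : Module.End F (Q4 E)) G 0 0 0 0)
    (fun x y => by rw [LinearMap.map_add]; rfl)
  have hev : ∀ G : Q4 E, (VV F : Module.End F (Q4 E)) G 0 0 0 0 = ev G := fun G => rfl
  rw [hev, hs, map_sum]
  simp only [map_sum]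
  simp only [← hev, key]
  simp [Fin.sum_univ_three]
  noncomm_ring

end Pool.Agent.V8H65.PW
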