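import Pool.Agent.V8H65.PW.Lnd

/-!
# The localised Weyl algebra

`Ã_{k+1}` is realised by operators on the Laurent polynomials in `k + 1` variables, generated by
`t_0, t_0⁻¹`, the `t_i` and the partial derivatives.  There is no injective linear map from the Laurent
polynomials in two variables to it with `Φ g * Φ h = Φ (g h) * Φ 1`.
-/

set_option autoImplicit false
set_option linter.unusedSectionVars false

namespace Pool.Agent.V8H65.PW

/-- Laurent polynomials over `F` in the variables `t_i`, `i : J`; `single v c` is the monomial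
`c t^v`. -/
abbrev Lau (F : Type*) [Field F] (J : Type*) := AddMonoidAlgebra F (J → ℤ)

section ops

variable {F : Type*} [Field F] {J : Type*} [DecidableEq J]

/-- Multiplication by `t_i^n`. -/
noncomputable def mulT (i : J) (n : ℤ) : Module.End F (Lau F J) :=
  LinearMap.mulLeft F (AddMonoidAlgebra.single (Pi.single i n) (1 : F) : Lau F J)

/-- The partial derivative `∂_i`: it sends `t^v` to `v_i t^(v - ε_i)`. -/
noncomputable def delT (i : J) : Module.End F (Lau F J) :=
  Finsupp.linearCombination F (fun v : J → ℤ =>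
    (AddMonoidAlgebra.single (v - Pi.single i 1) ((v i : ℤ) : F) : Lau F J)) ∘ₗ
    (AddMonoidAlgebra.coeffLinearEquiv F).toLinearMap

lemma mulT_single (i : J) (n : ℤ) (v : J → ℤ) (c : F) :
    mulT i n (AddMonoidAlgebra.single v c : Lau F J) =
      AddMonoidAlgebra.single (Pi.single i n + v) c := by
  rw [mulT, LinearMap.mulLeft_apply, AddMonoidAlgebra.single_mul_single, one_mul]

lemma delT_single (i : J) (v : J → ℤ) (c : F) :
    delT i (AddMonoidAlgebra.single v c : Lau F J) =
      AddMonoidAlgebra.single (v - Pi.single i 1) (c * ((v i : ℤ) : F)) := by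
  rw [delT, LinearMap.comp_apply]
  change Finsupp.linearCombination F _ (Finsupp.single v c) = _
  rw [Finsupp.linearCombination_single, AddMonoidAlgebra.smul_single, smul_eq_mul]

/-- Operators on Laurent polynomials agree if they agree on monomials. -/
lemma end_ext {x y : Module.End F (Lau F J)}
    (h : ∀ v c, x (AddMonoidAlgebra.single v c) = y (AddMonoidAlgebra.single v c)) : x = y := by
  refine LinearMap.ext fun f => ?_
  induction f using AddMonoidAlgebra.induction_linear with
  | zero => rw [map_zero, map_zero]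
  | add f g hf hg => rw [map_add, map_add, hf, hg]
  | single v c => exact h v c

lemma mulT_add (i : J) (m n : ℤ) : mulT (F := F) i m * mulT i n = mulT i (m + n) := by
  apply end_ext
  intro v c
  rw [Module.End.mul_apply, mulT_single, mulT_single, mulT_single, ← add_assoc, Pi.single_add]

lemma mulT_zero (i : J) : mulT (F := F) i 0 = 1 := by
  apply end_ext
  intro v c
  rw [mulT_single, Pi.single_zero, zero_add, Module.End.one_apply]

lemma mulT_comm (i j : J) (m n : ℤ) : mulT (F := F) i m * mulT j n = mulT j n * mulT i m := by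
  apply end_ext
  intro v c
  rw [Module.End.mul_apply, Module.End.mul_apply, mulT_single, mulT_single, mulT_single,
    mulT_single, ← add_assoc, ← add_assoc, add_comm (Pi.single i m : J → ℤ)]

lemma delT_mulT_ne {i j : J} (h : i ≠ j) (n : ℤ) :
    delT (F := F) i * mulT j n = mulT j n * delT i := by
  apply end_ext
  intro v c
  rw [Module.End.mul_apply, Module.End.mul_apply, mulT_single, delT_single, delT_single,
    mulT_single, Pi.add_apply, Pi.single_eq_of_ne h, zero_add, add_sub_assoc]

lemma delT_mulT (i : J) : delT (F := F) i * mulT i 1 = mulT i 1 * delT i + 1 := by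
  apply end_ext
  intro v c
  rw [Module.End.mul_apply, mulT_single, delT_single, LinearMap.add_apply, Module.End.mul_apply,
    delT_single, mulT_single, Module.End.one_apply, Pi.add_apply, Pi.single_eq_same]
  have e1 : Pi.single i 1 + v - Pi.single i 1 = v := by abel
  have e2 : Pi.single i 1 + (v - Pi.single i 1) = v := by abel
  rw [e1, e2, ← AddMonoidAlgebra.single_add]
  congr 1
  push_cast
  ring

lemma delT_comm (i j : J) : delT (F := F) i * delT j = delT j * delT i := by
  by_cases h : i = j
  · rw [h]
  · apply end_ext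
    intro v c
    rw [Module.End.mul_apply, Module.End.mul_apply, delT_single, delT_single, delT_single,
      delT_single, Pi.sub_apply, Pi.sub_apply, Pi.single_eq_of_ne h, Pi.single_eq_of_ne (Ne.symm h),
      sub_zero, sub_zero, sub_right_comm, mul_right_comm]

/-- Coefficients of the derivative. -/
lemma coeff_delT (i : J) (f : Lau F J) (w : J → ℤ) :
    (delT i f).coeff w = ((w i + 1 : ℤ) : F) * f.coeff (w + Pi.single i 1) := by
  classical
  induction f using AddMonoidAlgebra.induction_linear with
  | zero => simp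
  | add f g hf hg =>
    rw [map_add, AddMonoidAlgebra.coeff_add, Finsupp.add_apply, hf, hg,
      AddMonoidAlgebra.coeff_add, Finsupp.add_apply, mul_add]
  | single v c =>
    rw [delT_single, AddMonoidAlgebra.coeff_single, AddMonoidAlgebra.coeff_single,
      Finsupp.single_apply, Finsupp.single_apply]
    by_cases h : v - Pi.single i 1 = w
    · have h' : v = w + Pi.single i 1 := by rw [← h]; abel
      rw [if_pos h, if_pos h', h']
      simp
      ring
    · have h' : ¬ v = w + Pi.single i 1 := by
        intro h'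
        apply h
        rw [h']
        abel
      rw [if_neg h, if_neg h', mul_zero]

end ops

section lnd

variable {F : Type*} [Field F] [CharZero F] {B : Type*} [Ring B] [Algebra F B]

/-- The inner derivation. -/
def adj (a : B) : B →ₗ[F] B := LinearMap.mulLeft F a - LinearMap.mulRight F a

lemma adj_apply (a x : B) : adj (F := F) a x = a * x - x * a := rfl

lemma adj_leib (a x y : B) : adj (F := F) a (x * y) = adj (F := F) a x * y + x * adj (F := F) a y := by
  simp only [adj_apply]
  noncomm_ring

lemma adj_comm {a b : B} {c : F} (h : a * b - b * a = c • (1 : B)) (x : B) :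
    adj (F := F) a (adj (F := F) b x) = adj (F := F) b (adj (F := F) a x) := by
  have h1 : adj (F := F) a (adj (F := F) b x) - adj (F := F) b (adj (F := F) a x) =
      (a * b - b * a) * x - x * (a * b - b * a) := by
    simp only [adj_apply]
    noncomm_ring
  rw [← sub_eq_zero, h1, h]
  simp

lemma adj_one (a : B) : adj (F := F) a 1 = 0 := by
  simp [adj_apply]

/-- Elements on which a derivation is nilpotent, in an adjoined subalgebra. -/
lemma adj_nil {a : B} {s : Set B} (h : ∀ x ∈ s, ∃ n : ℕ, (adj (F := F) a ^ n) x = 0) :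
    ∀ x ∈ Algebra.adjoin F s, ∃ n : ℕ, (adj (F := F) a ^ n) x = 0 := by
  intro x hx
  induction hx using Algebra.adjoin_induction with
  | mem x hx => exact h x hx
  | algebraMap r =>
    refine ⟨1, ?_⟩
    rw [pow_one, Algebra.algebraMap_eq_smul_one, map_smul, adj_one, smul_zero]
  | add x y _ _ hx hy =>
    obtain ⟨m, hm⟩ := hx
    obtain ⟨n, hn⟩ := hy
    refine ⟨max m n, ?_⟩
    rw [map_add, pow_zero_of_le hm (le_max_left _ _), pow_zero_of_le hn (le_max_right _ _),
      add_zero]
  | mul x y _ _ hx hy =>
    obtain ⟨m, hm⟩ := hx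
    obtain ⟨n, hn⟩ := hy
    exact ⟨m + n + 1, leib_zero (adj_leib a) (pow_zero_of_le hm (Nat.le_succ m))
      (pow_zero_of_le hn (Nat.le_succ n))⟩

end lnd

/-- The localised Weyl algebra `Ã_{k+1} = F[t, t⁻¹, ∂] ⊗ A_k`, for `F` of characteristic zero: the
algebra of operators on the Laurent polynomials in `t_0, …, t_k` generated by the multiplications by
`t_0⁻¹, t_0, t_1, …, t_k` and the partial derivatives `∂_0, …, ∂_k`. -/
noncomputable def LocWeyl (F : Type*) [Field F] (k : ℕ) :
    Subalgebra F (Module.End F (Lau F (Fin (k + 1)))) :=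
  Algebra.adjoin F ({mulT 0 (-1)} ∪ Set.range (fun i => mulT i 1) ∪ Set.range (fun i => delT i))

section main

variable {F : Type*} [Field F] [CharZero F] {k : ℕ}

lemma mulT_mem (i : Fin (k + 1)) : mulT i 1 ∈ LocWeyl F k :=
  Algebra.subset_adjoin (Or.inl (Or.inr ⟨i, rfl⟩))

lemma delT_mem (i : Fin (k + 1)) : delT i ∈ LocWeyl F k :=
  Algebra.subset_adjoin (Or.inr ⟨i, rfl⟩)

/-- The elements whose inner derivations are used. -/
noncomputable def dl (F : Type*) [Field F] (k : ℕ) : List (Module.End F (Lau F (Fin (k + 1)))) :=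
  (List.finRange (k + 1)).map (fun i => mulT i 1) ++
    ((List.finRange (k + 1)).filter (fun i => i ≠ 0)).map (fun i => delT i)

lemma mem_dl (x : Module.End F (Lau F (Fin (k + 1)))) :
    x ∈ dl F k ↔ (∃ i, x = mulT i 1) ∨ ∃ i, i ≠ 0 ∧ x = delT i := by
  simp only [dl, List.mem_append, List.mem_map, List.mem_finRange, true_and, List.mem_filter,
    decide_eq_true_eq]
  constructor
  · rintro (⟨i, hi⟩ | ⟨i, hi, hi'⟩)
    · exact Or.inl ⟨i, hi.symm⟩
    · exact Or.inr ⟨i, hi, hi'.symm⟩
  · rintro (⟨i, hi⟩ | ⟨i, hi, hi'⟩)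
    · exact Or.inl ⟨i, hi.symm⟩
    · exact Or.inr ⟨i, hi, hi'.symm⟩

lemma dl_mem {x : Module.End F (Lau F (Fin (k + 1)))} (h : x ∈ dl F k) : x ∈ LocWeyl F k := by
  rw [mem_dl] at h
  rcases h with ⟨i, rfl⟩ | ⟨i, -, rfl⟩
  · exact mulT_mem i
  · exact delT_mem i

lemma dl_gen {x : Module.End F (Lau F (Fin (k + 1)))} (h : x ∈ dl F k)
    {y : Module.End F (Lau F (Fin (k + 1)))}
    (hy : y ∈ ({mulT 0 (-1)} ∪ Set.range (fun i => mulT i 1) ∪ Set.range (fun i => delT i) :
      Set (Module.End F (Lau F (Fin (k + 1)))))) : ∃ c : F, adj (F := F) x y = c • 1 := by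
  rw [mem_dl] at h
  rcases h with ⟨i, rfl⟩ | ⟨i, hi, rfl⟩
  · rcases hy with (hy | ⟨j, rfl⟩) | ⟨j, rfl⟩
    · rw [Set.mem_singleton_iff] at hy
      subst hy
      exact ⟨0, by rw [adj_apply, mulT_comm, sub_self, zero_smul]⟩
    · exact ⟨0, by rw [adj_apply, mulT_comm, sub_self, zero_smul]⟩
    · by_cases hij : j = i
      · subst hij
        refine ⟨-1, LinearMap.ext fun f => ?_⟩
        simp only [adj_apply, delT_mulT]
        simp only [LinearMap.sub_apply, LinearMap.add_apply, LinearMap.smul_apply,
          Module.End.one_apply]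
        rw [neg_smul, one_smul]
        abel
      · exact ⟨0, by rw [adj_apply, delT_mulT_ne hij, sub_self, zero_smul]⟩
  · rcases hy with (hy | ⟨j, rfl⟩) | ⟨j, rfl⟩
    · rw [Set.mem_singleton_iff] at hy
      subst hy
      exact ⟨0, by rw [adj_apply, delT_mulT_ne hi, sub_self, zero_smul]⟩
    · by_cases hij : i = j
      · subst hij
        exact ⟨1, by simp only [adj_apply, delT_mulT]; simp⟩
      · exact ⟨0, by simp only [adj_apply]; rw [delT_mulT_ne hij, sub_self, zero_smul]⟩
    · exact ⟨0, by simp only [adj_apply]; rw [delT_comm, sub_self, zero_smul]⟩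

lemma dl_nil {x : Module.End F (Lau F (Fin (k + 1)))} (h : x ∈ dl F k) :
    ∀ y ∈ LocWeyl F k, ∃ n : ℕ, (adj (F := F) x ^ n) y = 0 := by
  apply adj_nil
  intro y hy
  obtain ⟨c, hc⟩ := dl_gen h hy
  refine ⟨2, ?_⟩
  rw [pow_two, Module.End.mul_apply, hc, map_smul, adj_one, smul_zero]

lemma dl_comm {x y : Module.End F (Lau F (Fin (k + 1)))} (hx : x ∈ dl F k) (hy : y ∈ dl F k)
    (z : Module.End F (Lau F (Fin (k + 1)))) :
    adj (F := F) x (adj (F := F) y z) = adj (F := F) y (adj (F := F) x z) := by
  have hy' : y ∈ ({mulT 0 (-1)} ∪ Set.range (fun i => mulT i 1) ∪ Set.range (fun i => delT i) :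
      Set (Module.End F (Lau F (Fin (k + 1))))) := by
    rw [mem_dl] at hy
    rcases hy with ⟨i, rfl⟩ | ⟨i, -, rfl⟩
    · exact Or.inl (Or.inr ⟨i, rfl⟩)
    · exact Or.inr ⟨i, rfl⟩
  obtain ⟨c, hc⟩ := dl_gen hx hy'
  exact adj_comm hc z

/-- An operator commuting with the `t_i` is a multiplication. -/
lemma eq_mul {x : Module.End F (Lau F (Fin (k + 1)))}
    (h : ∀ i : Fin (k + 1), mulT i 1 * x = x * mulT i 1) (f : Lau F (Fin (k + 1))) :
    x f = f * x 1 := by
  let H : AddSubgroup (Fin (k + 1) → ℤ) :=
    { carrier := {v | ∀ f : Lau F (Fin (k + 1)), x (AddMonoidAlgebra.single v 1 * f) =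
        AddMonoidAlgebra.single v 1 * x f}
      zero_mem' := fun f => by
        have : (AddMonoidAlgebra.single (0 : Fin (k + 1) → ℤ) (1 : F)) = 1 := rfl
        rw [this, one_mul, one_mul]
      add_mem' := fun {v w} hv hw f => by
        have : (AddMonoidAlgebra.single (v + w) (1 : F)) =
            AddMonoidAlgebra.single v 1 * AddMonoidAlgebra.single w 1 := by
          rw [AddMonoidAlgebra.single_mul_single, one_mul]
        rw [this, mul_assoc, hv, hw, mul_assoc]
      neg_mem' := fun {v} hv f => by
        have h1 : (AddMonoidAlgebra.single v (1 : F)) * AddMonoidAlgebra.single (-v) 1 = 1 := by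
          rw [AddMonoidAlgebra.single_mul_single, one_mul, add_neg_cancel]
          rfl
        have h2 := hv (AddMonoidAlgebra.single (-v) 1 * f)
        rw [← mul_assoc, h1, one_mul] at h2
        rw [h2, ← mul_assoc, mul_comm (AddMonoidAlgebra.single (-v) (1 : F))
          (AddMonoidAlgebra.single v 1), h1, one_mul] }
  have hH : ∀ v, v ∈ H := by
    intro v
    have h1 : v = ∑ i, v i • (Pi.single i 1 : Fin (k + 1) → ℤ) := by
      funext j
      simp [Finset.sum_apply, Pi.single_apply]
    rw [h1]
    refine H.sum_mem fun i _ => H.zsmul_mem ?_ _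
    intro f
    have := LinearMap.congr_fun (h i) f
    rw [Module.End.mul_apply, Module.End.mul_apply] at this
    exact this.symm
  induction f using AddMonoidAlgebra.induction_linear with
  | zero => rw [map_zero, zero_mul]
  | add f g hf hg => rw [map_add, hf, hg, add_mul]
  | single v c =>
    have h1 : (AddMonoidAlgebra.single v c : Lau F (Fin (k + 1))) =
        c • (AddMonoidAlgebra.single v 1 * 1) := by
      rw [mul_one, AddMonoidAlgebra.smul_single, smul_eq_mul, mul_one]
    rw [h1, map_smul, hH v 1, smul_mul_assoc, mul_one]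

/-- The support of the value at `1` of an element of the common kernel. -/
lemma supp_one {x : Module.End F (Lau F (Fin (k + 1)))}
    (h : ∀ D ∈ dl F k, adj (F := F) D x = 0) (v : Fin (k + 1) → ℤ) (hv : (x 1).coeff v ≠ 0)
    (i : Fin (k + 1)) (hi : i ≠ 0) : v i = 0 := by
  have h1 : ∀ i : Fin (k + 1), mulT i 1 * x = x * mulT i 1 := fun i => by
    have := h _ ((mem_dl _).2 (Or.inl ⟨i, rfl⟩))
    rwa [adj_apply, sub_eq_zero] at this
  have h2 : delT i * x = x * delT i := by
    have := h _ ((mem_dl _).2 (Or.inr ⟨i, hi, rfl⟩))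
    rwa [adj_apply, sub_eq_zero] at this
  have h3 := LinearMap.congr_fun h2 1
  rw [Module.End.mul_apply, Module.End.mul_apply] at h3
  have h4 : delT i (1 : Lau F (Fin (k + 1))) = 0 := by
    have : (1 : Lau F (Fin (k + 1))) = AddMonoidAlgebra.single 0 1 := rfl
    rw [this, delT_single]
    simp
  rw [h4, map_zero] at h3
  have h5 := coeff_delT i (x 1) (v - Pi.single i 1)
  rw [h3, sub_add_cancel] at h5
  simp only [Pi.sub_apply, Pi.single_eq_same, sub_add_cancel, AddMonoidAlgebra.coeff_zero,
    Finsupp.coe_zero, Pi.zero_apply] at h5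
  rcases mul_eq_zero.1 h5.symm with h6 | h6
  · exact_mod_cast h6
  · exact absurd h6 hv

end main

end Pool.Agent.V8H65.PW
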